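import Mathlib
import Pool.Agent.Lib.MP_d0d59f_nt.Basic

/-!
From predecessor densities to EVERY orbit: forward invariant sets on which `T_d` is injective (up to one
point) have bounded reciprocal sums and few elements.
-/

namespace Pool.Agent.Lib.MP_d0d59f_nt.EO

open Finset

/-- Predecessor sets have density at least `c / (|a| + |d|)`. -/
def PosDens (c : ℝ) : Prop :=
  ∀ d a : ℤ, Odd d → ¬ (3 : ℤ) ∣ d → ¬ (3 : ℤ) ∣ a → ∀ X : ℝ, |(a : ℝ)| + |(d : ℝ)| ≤ X →
    c * (X / (|(a : ℝ)| + |(d : ℝ)|)) ≤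
      (Set.ncard {m : ℤ | |(m : ℝ)| ≤ X ∧ ∃ k : ℕ, (T d)^[k] m = a} : ℝ)

/-- Few integers stay above `B |d|` for `C log (X / |d|)` steps. -/
def PowSav (c C : ℝ) : Prop :=
  ∀ d : ℤ, Odd d → ¬ (3 : ℤ) ∣ d → ∀ B X : ℝ, 2 ≤ B → |(d : ℝ)| ≤ X →
    (Set.ncard {x : ℤ | |(x : ℝ)| ≤ X ∧ ∀ k : ℕ, (k : ℝ) ≤ C * Real.log (X / |(d : ℝ)|) →
      B * |(d : ℝ)| < |(((T d)^[k] x : ℤ) : ℝ)|} : ℝ) ≤ C * X / B ^ c

theorem box_eq (X : ℝ) : {m : ℤ | |(m : ℝ)| ≤ X} = ((Finset.Icc (-⌊X⌋) ⌊X⌋ : Finset ℤ) : Set ℤ) := by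
  ext m
  simp only [Set.mem_setOf_eq, Finset.coe_Icc, Set.mem_Icc]
  rw [abs_le]
  constructor
  · rintro ⟨h1, h2⟩
    refine ⟨?_, Int.le_floor.2 h2⟩
    have : ((-m : ℤ) : ℝ) ≤ X := by push_cast; linarith
    have := Int.le_floor.2 this
    omega
  · rintro ⟨h1, h2⟩
    refine ⟨?_, Int.le_floor.1 h2⟩
    have h3 : -m ≤ ⌊X⌋ := by omega
    have := Int.le_floor.1 h3
    push_cast at this
    linarith

theorem box_finite (X : ℝ) : {m : ℤ | |(m : ℝ)| ≤ X}.Finite := by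
  rw [box_eq]
  exact Finset.finite_toSet _

theorem box_card {X : ℝ} (hX : 0 ≤ X) : (Set.ncard {m : ℤ | |(m : ℝ)| ≤ X} : ℝ) ≤ 2 * X + 1 := by
  rw [box_eq, Set.ncard_coe_finset, Int.card_Icc]
  have h0 : 0 ≤ ⌊X⌋ := Int.floor_nonneg.2 hX
  have h1 : (((⌊X⌋ + 1 - -⌊X⌋).toNat : ℕ) : ℝ) = 2 * (⌊X⌋ : ℝ) + 1 := by
    have h2 : (((⌊X⌋ + 1 - -⌊X⌋).toNat : ℕ) : ℤ) = 2 * ⌊X⌋ + 1 := by
      rw [Int.toNat_of_nonneg (by omega)]
      ring
    have h3 : (((⌊X⌋ + 1 - -⌊X⌋).toNat : ℕ) : ℝ) = (((((⌊X⌋ + 1 - -⌊X⌋).toNat : ℕ) : ℤ)) : ℝ) := by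
      norm_cast
    rw [h3, h2]
    push_cast
    ring
  rw [h1]
  have := Int.floor_le X
  linarith

theorem one_le_absd {d : ℤ} (hd : Odd d) : (1 : ℝ) ≤ |(d : ℝ)| := by
  have h : (1 : ℤ) ≤ |d| := by
    have : d ≠ 0 := by
      rintro rfl
      exact absurd hd (by decide)
    exact Int.one_le_abs this
  exact_mod_cast h

theorem T_three {d z : ℤ} (hd : Odd d) (hz : Odd z) : T d (3 * z + d) = T d z := by
  have h1 : (3 * z + d) % 2 = 0 := by
    obtain ⟨a, rfl⟩ := hd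
    obtain ⟨b, rfl⟩ := hz
    omega
  have h2 : z % 2 = 1 := Int.odd_iff.1 hz
  have e1 := T_even (d := d) h1
  have e2 := T_odd hd h2
  omega

/-- Disjoint predecessor sets: the reciprocal sum is bounded. -/
theorem disj_sum {c : ℝ} (hc : 0 < c) (h : PosDens c) {d : ℤ} (hd : Odd d) (h3 : ¬ (3 : ℤ) ∣ d)
    (F : Finset ℤ) (hodd : ∀ z ∈ F, Odd z)
    (hF : ∀ z ∈ F, ∀ z' ∈ F, z ≠ z' → ∀ j : ℕ, (T d)^[j + 1] z ≠ 3 * z' + d) :
    ∑ z ∈ F, 1 / (|(z : ℝ)| + |(d : ℝ)|) ≤ 9 / c := by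
  classical
  have hd1 := one_le_absd hd
  set w : ℤ → ℝ := fun z => |(((3 * z + d : ℤ)) : ℝ)| + |(d : ℝ)| with hw
  have hw1 : ∀ z, 1 ≤ w z := fun z => by
    have := abs_nonneg (((3 * z + d : ℤ)) : ℝ)
    simp only [hw]
    linarith
  set X : ℝ := ∑ z ∈ F, w z + 1 with hX
  have hsum0 : 0 ≤ ∑ z ∈ F, w z := Finset.sum_nonneg fun z _ => by linarith [hw1 z]
  have hXw : ∀ z ∈ F, w z ≤ X := fun z hz => by
    have := Finset.single_le_sum (f := w) (fun y _ => by linarith [hw1 y]) hz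
    linarith
  have hX1 : 1 ≤ X := by linarith
  set P : ℤ → Set ℤ := fun z => {m : ℤ | |(m : ℝ)| ≤ X ∧ ∃ k : ℕ, (T d)^[k] m = 3 * z + d} with hP
  have hPfin : ∀ z, (P z).Finite := fun z => (box_finite X).subset fun m hm => hm.1
  have hdisj : ∀ z ∈ F, ∀ z' ∈ F, z ≠ z' → Disjoint (P z) (P z') := by
    have key : ∀ z ∈ F, ∀ z' ∈ F, z ≠ z' → ∀ m, ∀ u v : ℕ, (T d)^[u] m = 3 * z + d →
        (T d)^[v] m = 3 * z' + d → u ≤ v → False := by
      intro z hz z' hz' hne m u v hu hv huv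
      obtain ⟨j, rfl⟩ := Nat.exists_eq_add_of_le huv
      rcases j with _ | j
      · apply hne
        rw [Nat.add_zero, hu] at hv
        omega
      · apply hF z hz z' hz' hne j
        have e : (T d)^[j + 1] z = (T d)^[j + 1] (3 * z + d) := by
          rw [Function.iterate_succ_apply, Function.iterate_succ_apply, T_three hd (hodd z hz)]
        rw [e, ← hu, ← Function.iterate_add_apply, add_comm (j + 1) u]
        exact hv
    intro z hz z' hz' hne
    rw [Set.disjoint_left]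
    rintro m ⟨_, u, hu⟩ ⟨_, v, hv⟩
    rcases le_total u v with huv | huv
    · exact key z hz z' hz' hne m u v hu hv huv
    · exact key z' hz' z hz (Ne.symm hne) m v u hv hu huv
  have hcard : (∑ z ∈ F, (P z).ncard : ℕ) ≤ Set.ncard {m : ℤ | |(m : ℝ)| ≤ X} := by
    have e1 : ∑ z ∈ F, (P z).ncard = ∑ z ∈ F, (hPfin z).toFinset.card := by
      refine Finset.sum_congr rfl fun z _ => ?_
      rw [Set.ncard_eq_toFinset_card _ (hPfin z)]
    rw [e1, ← Finset.card_biUnion, Set.ncard_eq_toFinset_card _ (box_finite X)]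
    · refine Finset.card_le_card ?_
      intro m hm
      rw [Finset.mem_biUnion] at hm
      obtain ⟨z, _, hm⟩ := hm
      rw [Set.Finite.mem_toFinset] at hm ⊢
      exact hm.1
    · intro z hz z' hz' hne
      show Disjoint _ _
      rw [Finset.disjoint_left]
      intro m hm hm'
      rw [Set.Finite.mem_toFinset] at hm hm'
      exact Set.disjoint_left.1 (hdisj z hz z' hz' hne) hm hm'
  have hlow : ∀ z ∈ F, c * (X / w z) ≤ ((P z).ncard : ℝ) := by
    intro z hz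
    refine h d (3 * z + d) hd h3 ?_ X (hXw z hz)
    intro hdvd
    apply h3
    have := (Int.dvd_add_right (Dvd.intro z rfl : (3 : ℤ) ∣ 3 * z)).1 hdvd
    exact this
  have h1 : ∑ z ∈ F, c * (X / w z) ≤ 3 * X := by
    have h2 : ∑ z ∈ F, c * (X / w z) ≤ ∑ z ∈ F, ((P z).ncard : ℝ) := Finset.sum_le_sum hlow
    have h4 : ∑ z ∈ F, ((P z).ncard : ℝ) ≤ (Set.ncard {m : ℤ | |(m : ℝ)| ≤ X} : ℝ) := by
      exact_mod_cast hcard
    have h5 := box_card (X := X) (by linarith)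
    linarith
  have h2 : ∑ z ∈ F, 1 / w z ≤ 3 / c := by
    have e : ∑ z ∈ F, c * (X / w z) = c * X * ∑ z ∈ F, 1 / w z := by
      rw [Finset.mul_sum]
      refine Finset.sum_congr rfl fun z _ => ?_
      ring
    rw [e] at h1
    rw [le_div_iff₀ hc]
    have hXpos : 0 < X := by linarith
    have : (c * ∑ z ∈ F, 1 / w z) * X ≤ 3 * X := by nlinarith
    have := le_of_mul_le_mul_right this hXpos
    linarith
  have h4 : ∑ z ∈ F, 1 / (|(z : ℝ)| + |(d : ℝ)|) ≤ ∑ z ∈ F, 3 * (1 / w z) := by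
    refine Finset.sum_le_sum fun z _ => ?_
    have hz0 := abs_nonneg (z : ℝ)
    have hwz : w z ≤ 3 * (|(z : ℝ)| + |(d : ℝ)|) := by
      have : |(((3 * z + d : ℤ)) : ℝ)| ≤ 3 * |(z : ℝ)| + |(d : ℝ)| := by
        push_cast
        refine (abs_add_le _ _).trans ?_
        rw [abs_mul]
        norm_num
      simp only [hw]
      linarith
    have hpos : 0 < |(z : ℝ)| + |(d : ℝ)| := by linarith
    rw [mul_one_div, div_le_div_iff₀ hpos (by linarith [hw1 z])]
    linarith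
  rw [← Finset.mul_sum] at h4
  calc ∑ z ∈ F, 1 / (|(z : ℝ)| + |(d : ℝ)|) ≤ 3 * ∑ z ∈ F, 1 / w z := h4
    _ ≤ 3 * (3 / c) := by linarith
    _ = 9 / c := by ring


/-- General form: a forward invariant set on which `T_d` is injective up to one point. -/
theorem inv_sum {c : ℝ} (hc : 0 < c) (h : PosDens c) {d : ℤ} (hd : Odd d) (h3 : ¬ (3 : ℤ) ∣ d)
    (S : Set ℤ) (s : ℤ) (hS : ∀ z ∈ S, T d z ∈ S) (hinj : Set.InjOn (T d) (S \ {s}))
    (F : Finset ℤ) (hFS : ∀ z ∈ F, z ∈ S) (hodd : ∀ z ∈ F, Odd z) :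
    ∑ z ∈ F, 1 / (|(z : ℝ)| + |(d : ℝ)|) ≤ 9 / c + 1 := by
  classical
  have hd1 := one_le_absd hd
  have hit : ∀ (n : ℕ) (z : ℤ), z ∈ S → (T d)^[n] z ∈ S := by
    intro n
    induction n with
    | zero => intro z hz; exact hz
    | succ n ih =>
      intro z hz
      rw [Function.iterate_succ_apply]
      exact ih _ (hS z hz)
  rw [← Finset.sum_filter_add_sum_filter_not F (fun z => 3 * z + d ∉ S)]
  have h1 : ∑ z ∈ F.filter (fun z => 3 * z + d ∉ S), 1 / (|(z : ℝ)| + |(d : ℝ)|) ≤ 9 / c := by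
    refine disj_sum hc h hd h3 _ (fun z hz => hodd z (Finset.mem_filter.1 hz).1) ?_
    intro z hz z' hz' _ j hj
    rw [Finset.mem_filter] at hz hz'
    apply hz'.2
    rw [← hj]
    exact hit _ _ (hFS z hz.1)
  have hex : ∀ z ∈ F.filter (fun z => ¬ (3 * z + d ∉ S)), z = s ∨ 3 * z + d = s := by
    intro z hz
    rw [Finset.mem_filter, not_not] at hz
    by_contra hcon
    push Not at hcon
    have hz1 : z ∈ S \ {s} := ⟨hFS z hz.1, fun he => hcon.1 he⟩
    have hz2 : 3 * z + d ∈ S \ {s} := ⟨hz.2, fun he => hcon.2 he⟩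
    have he := hinj hz2 hz1 (T_three hd (hodd z hz.1))
    obtain ⟨a, ha⟩ := hodd z hz.1
    obtain ⟨b, hb⟩ := hd
    omega
  have hcard : (F.filter (fun z => ¬ (3 * z + d ∉ S))).card ≤ 1 := by
    rw [Finset.card_le_one]
    intro z hz z' hz'
    have e1 := hex z hz
    have e2 := hex z' hz'
    rw [Finset.mem_filter] at hz hz'
    obtain ⟨a, ha⟩ := hodd z hz.1
    obtain ⟨a', ha'⟩ := hodd z' hz'.1
    obtain ⟨b, hb⟩ := hd
    rcases e1 with e1 | e1 <;> rcases e2 with e2 | e2 <;> omega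
  have h2 : ∑ z ∈ F.filter (fun z => ¬ (3 * z + d ∉ S)), 1 / (|(z : ℝ)| + |(d : ℝ)|) ≤ 1 := by
    calc ∑ z ∈ F.filter (fun z => ¬ (3 * z + d ∉ S)), 1 / (|(z : ℝ)| + |(d : ℝ)|)
        ≤ ∑ _z ∈ F.filter (fun z => ¬ (3 * z + d ∉ S)), (1 : ℝ) := by
          refine Finset.sum_le_sum fun z _ => ?_
          have := abs_nonneg (z : ℝ)
          rw [div_le_one (by linarith)]
          linarith
      _ = ((F.filter (fun z => ¬ (3 * z + d ∉ S))).card : ℝ) := by simp
      _ ≤ 1 := by exact_mod_cast hcard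
  linarith

/-- The set of values of the orbit of `x`. -/
def Orb (d x : ℤ) : Set ℤ := {y : ℤ | ∃ i : ℕ, (T d)^[i] x = y}

/-- The set of periodic points. -/
def Per (d : ℤ) : Set ℤ := {z : ℤ | ∃ q : ℕ, 0 < q ∧ (T d)^[q] z = z}

theorem per_eq (d : ℤ) : Per d = Function.periodicPts (T d) := rfl

theorem per_T {d z : ℤ} (hz : z ∈ Per d) : T d z ∈ Per d := by
  rw [per_eq] at hz ⊢
  exact (Function.bijOn_periodicPts (T d)).mapsTo hz

theorem per_iter {d z : ℤ} (hz : z ∈ Per d) (n : ℕ) : (T d)^[n] z ∈ Per d := by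
  induction n with
  | zero => exact hz
  | succ n ih =>
    rw [Function.iterate_succ_apply']
    exact per_T ih

theorem per_inj (d : ℤ) : Set.InjOn (T d) (Per d) := by
  rw [per_eq]
  exact (Function.bijOn_periodicPts (T d)).injOn

theorem orb_T {d x z : ℤ} (hz : z ∈ Orb d x) : T d z ∈ Orb d x := by
  obtain ⟨i, rfl⟩ := hz
  exact ⟨i + 1, by rw [Function.iterate_succ_apply']⟩

/-- A collision makes the common value periodic. -/
theorem collision {d x : ℤ} {i j : ℕ} (hij : i < j) (h : (T d)^[i] x = (T d)^[j] x) :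
    (T d)^[i] x ∈ Per d := by
  refine ⟨j - i, by omega, ?_⟩
  rw [← Function.iterate_add_apply, Nat.sub_add_cancel hij.le]
  exact h.symm

theorem orb_inj (d x : ℤ) : ∃ s : ℤ, Set.InjOn (T d) (Orb d x \ {s}) := by
  classical
  by_cases hex : ∃ e : ℕ, (T d)^[e] x ∈ Per d
  · have he := Nat.find_spec hex
    have hmin : ∀ m, (T d)^[m] x ∈ Per d → Nat.find hex ≤ m := fun m hm => Nat.find_min' hex hm
    set e := Nat.find hex with hedef
    have hlate : ∀ i, e ≤ i → (T d)^[i] x ∈ Per d := by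
      intro i hi
      have e1 : (T d)^[i] x = (T d)^[i - e] ((T d)^[e] x) := by
        rw [← Function.iterate_add_apply, Nat.sub_add_cancel hi]
      rw [e1]
      exact per_iter he _
    refine ⟨(T d)^[e - 1] x, ?_⟩
    rintro y ⟨⟨i, rfl⟩, hy⟩ y' ⟨⟨j, rfl⟩, hy'⟩ hyy
    have hy1 : (T d)^[i] x ≠ (T d)^[e - 1] x := hy
    have hy2 : (T d)^[j] x ≠ (T d)^[e - 1] x := hy'
    rw [← Function.iterate_succ_apply' (T d) i, ← Function.iterate_succ_apply' (T d) j] at hyy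
    by_cases hp : (T d)^[i + 1] x ∈ Per d
    · have hp' : (T d)^[j + 1] x ∈ Per d := by rw [← hyy]; exact hp
      have h1 := hmin _ hp
      have h2 := hmin _ hp'
      have hi : e ≤ i := by
        rcases Nat.lt_or_ge i e with h | h
        · exfalso
          apply hy1
          have : i = e - 1 := by omega
          rw [this]
        · exact h
      have hj : e ≤ j := by
        rcases Nat.lt_or_ge j e with h | h
        · exfalso
          apply hy2
          have : j = e - 1 := by omega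
          rw [this]
        · exact h
      refine per_inj d (hlate i hi) (hlate j hj) ?_
      rw [← Function.iterate_succ_apply' (T d) i, ← Function.iterate_succ_apply' (T d) j]
      exact hyy
    · have hij : i = j := by
        rcases Nat.lt_trichotomy i j with h | h | h
        · exact absurd (collision (Nat.succ_lt_succ h) hyy) hp
        · exact h
        · exact absurd (hyy ▸ collision (Nat.succ_lt_succ h) hyy.symm) hp
      rw [hij]
  · refine ⟨0, ?_⟩
    rintro y ⟨⟨i, rfl⟩, hy⟩ y' ⟨⟨j, rfl⟩, hy'⟩ hyy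
    rw [← Function.iterate_succ_apply' (T d) i, ← Function.iterate_succ_apply' (T d) j] at hyy
    have hij : i = j := by
      rcases Nat.lt_trichotomy i j with h | h | h
      · exact absurd ⟨_, collision (Nat.succ_lt_succ h) hyy⟩ hex
      · exact h
      · exact absurd ⟨_, collision (Nat.succ_lt_succ h) hyy.symm⟩ hex
    rw [hij]

/-- (E1) -/
theorem orbit_sum {c : ℝ} (hc : 0 < c) (h : PosDens c) {d : ℤ} (hd : Odd d) (h3 : ¬ (3 : ℤ) ∣ d)
    (x : ℤ) (n : ℕ) (hn : Set.InjOn (fun i : ℕ => (T d)^[i] x) (Set.Iio n)) :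
    ∑ i ∈ (Finset.range n).filter (fun i => (T d)^[i] x % 2 = 1),
      1 / (|(((T d)^[i] x : ℤ) : ℝ)| + |(d : ℝ)|) ≤ 9 / c + 1 := by
  classical
  obtain ⟨s, hs⟩ := orb_inj d x
  have hinj : Set.InjOn (fun i : ℕ => (T d)^[i] x)
      (((Finset.range n).filter (fun i => (T d)^[i] x % 2 = 1) : Finset ℕ) : Set ℕ) := by
    refine hn.mono ?_
    intro i hi
    have := (Finset.mem_filter.1 (Finset.mem_coe.1 hi)).1
    exact Finset.mem_range.1 this
  have key := inv_sum hc h hd h3 (Orb d x) s (fun z hz => orb_T hz) hs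
    (((Finset.range n).filter (fun i => (T d)^[i] x % 2 = 1)).image (fun i : ℕ => (T d)^[i] x)) ?_ ?_
  · rw [Finset.sum_image hinj] at key
    exact key
  · intro z hz
    obtain ⟨i, _, rfl⟩ := Finset.mem_image.1 hz
    exact ⟨i, rfl⟩
  · intro z hz
    obtain ⟨i, hi, rfl⟩ := Finset.mem_image.1 hz
    exact Int.odd_iff.2 (Finset.mem_filter.1 hi).2

/-- (E4a) -/
theorem per_sum {c : ℝ} (hc : 0 < c) (h : PosDens c) {d : ℤ} (hd : Odd d) (h3 : ¬ (3 : ℤ) ∣ d)
    (Z : Finset ℤ) (hZ : ∀ z ∈ Z, z % 2 = 1 ∧ ∃ q : ℕ, 0 < q ∧ (T d)^[q] z = z) :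
    ∑ z ∈ Z, 1 / (|(z : ℝ)| + |(d : ℝ)|) ≤ 9 / c + 1 :=
  inv_sum hc h hd h3 (Per d) 0 (fun _ hz => per_T hz) ((per_inj d).mono Set.sdiff_subset) Z
    (fun z hz => (hZ z hz).2) (fun z hz => Int.odd_iff.2 (hZ z hz).1)

/-- (E5) A set which every orbit enters, forward invariant, on which `T_d` is injective. -/
theorem skeleton (d : ℤ) : ∃ S : Set ℤ, (∀ z ∈ S, T d z ∈ S) ∧ Set.InjOn (T d) S ∧
    (∀ x : ℤ, ∃ k : ℕ, (T d)^[k] x ∈ S) ∧ (∀ z : ℤ, (∃ q : ℕ, 0 < q ∧ (T d)^[q] z = z) → z ∈ S) ∧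
    (∀ z ∈ S, ∀ z' ∈ S, (∃ i j : ℕ, (T d)^[i] z = (T d)^[j] z') →
      ∃ k : ℕ, (T d)^[k] z = z' ∨ (T d)^[k] z' = z) := by
  classical
  let st : Setoid ℤ :=
    { r := fun x y => ∃ i j : ℕ, (T d)^[i] x = (T d)^[j] y
      iseqv := ⟨fun x => ⟨0, 0, rfl⟩, fun {x y} ⟨i, j, h⟩ => ⟨j, i, h.symm⟩, fun {x y z} ⟨i, j, h⟩ ⟨k, l, h'⟩ =>
        ⟨k + i, j + l, by
          rw [Function.iterate_add_apply, h, ← Function.iterate_add_apply, add_comm k j,
            Function.iterate_add_apply, h', ← Function.iterate_add_apply]⟩⟩ }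
  let rep : ℤ → ℤ := fun x => (Quotient.mk st x).out
  have hrep : ∀ x, ∃ i j : ℕ, (T d)^[i] x = (T d)^[j] (rep x) := by
    intro x
    have h1 : Quotient.mk st (rep x) = Quotient.mk st x := Quotient.out_eq _
    obtain ⟨i, j, h⟩ := Quotient.exact h1
    exact ⟨j, i, h.symm⟩
  have hrepeq : ∀ x y, (∃ i j : ℕ, (T d)^[i] x = (T d)^[j] y) → rep x = rep y := by
    intro x y hxy
    have : Quotient.mk st x = Quotient.mk st y := Quotient.sound hxy
    show (Quotient.mk st x).out = (Quotient.mk st y).out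
    rw [this]
  -- points in grand orbits without a periodic point
  let good : ℤ → Prop := fun r => rep r = r ∧ ∀ i : ℕ, (T d)^[i] r ∉ Per d
  have hgood : ∀ r, good r → ∀ i j : ℕ, (T d)^[i] r = (T d)^[j] r → i = j := by
    intro r hr i j hij
    rcases Nat.lt_trichotomy i j with h | h | h
    · exact absurd (collision h hij) (hr.2 _)
    · exact h
    · exact absurd (collision h hij.symm) (hr.2 _)
  have hgg : ∀ r r', good r → good r' → ∀ i j : ℕ, (T d)^[i] r = (T d)^[j] r' → r = r' ∧ i = j := by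
    intro r r' hr hr' i j hij
    have h1 : r = r' := by rw [← hr.1, ← hr'.1]; exact hrepeq r r' ⟨i, j, hij⟩
    subst h1
    exact ⟨rfl, hgood r hr i j hij⟩
  refine ⟨Per d ∪ {y | ∃ r, good r ∧ ∃ i : ℕ, (T d)^[i] r = y}, ?_, ?_, ?_, ?_, ?_⟩
  · rintro z (hz | ⟨r, hr, i, rfl⟩)
    · exact Or.inl (per_T hz)
    · exact Or.inr ⟨r, hr, i + 1, by rw [Function.iterate_succ_apply']⟩
  · rintro z (hz | ⟨r, hr, i, rfl⟩) z' (hz' | ⟨r', hr', i', rfl⟩) hzz
    · exact per_inj d hz hz' hzz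
    · exfalso
      rw [← Function.iterate_succ_apply' (T d) i'] at hzz
      exact hr'.2 (i' + 1) (hzz ▸ per_T hz)
    · exfalso
      rw [← Function.iterate_succ_apply' (T d) i] at hzz
      exact hr.2 (i + 1) (hzz.symm ▸ per_T hz')
    · rw [← Function.iterate_succ_apply' (T d) i, ← Function.iterate_succ_apply' (T d) i'] at hzz
      obtain ⟨h1, h2⟩ := hgg r r' hr hr' _ _ hzz
      subst h1
      have : i = i' := by omega
      rw [this]
  · intro x
    obtain ⟨i, j, hij⟩ := hrep x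
    by_cases hg : good (rep x)
    · exact ⟨i, Or.inr ⟨rep x, hg, j, hij.symm⟩⟩
    · have h1 : rep (rep x) = rep x := (hrepeq x (rep x) ⟨i, j, hij⟩).symm
      have h2 : ∃ k : ℕ, (T d)^[k] (rep x) ∈ Per d := by
        by_contra hcon
        push Not at hcon
        exact hg ⟨h1, hcon⟩
      obtain ⟨k, hk⟩ := h2
      refine ⟨k + i, Or.inl ?_⟩
      rw [Function.iterate_add_apply, hij, ← Function.iterate_add_apply, add_comm k j,
        Function.iterate_add_apply]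
      exact per_iter hk j
  · intro z hz
    exact Or.inl hz
  · have hpp : ∀ z z' : ℤ, z ∈ Per d → z' ∈ Per d → (∃ i j : ℕ, (T d)^[i] z = (T d)^[j] z') →
        ∃ k : ℕ, (T d)^[k] z = z' ∨ (T d)^[k] z' = z := by
      rintro z z' hz ⟨q, hq, hz'⟩ ⟨i, j, hij⟩
      refine ⟨(q * (j + 1) - j) + i, Or.inl ?_⟩
      have h2 : ∀ m : ℕ, (T d)^[q * m] z' = z' := by
        intro m
        induction m with
        | zero => simp
        | succ m ih =>
          rw [Nat.mul_succ, Function.iterate_add_apply, hz', ih]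
      have h3 : j ≤ q * (j + 1) := by nlinarith
      rw [Function.iterate_add_apply, hij, ← Function.iterate_add_apply, Nat.sub_add_cancel h3]
      exact h2 _
    rintro z (hz | ⟨r, hr, i, rfl⟩) z' (hz' | ⟨r', hr', i', rfl⟩) ⟨a, b, hab⟩
    · exact hpp z z' hz hz' ⟨a, b, hab⟩
    · exfalso
      rw [← Function.iterate_add_apply] at hab
      exact hr'.2 (b + i') (hab ▸ per_iter hz a)
    · exfalso
      rw [← Function.iterate_add_apply] at hab
      exact hr.2 (a + i) (hab.symm ▸ per_iter hz' b)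
    · rw [← Function.iterate_add_apply, ← Function.iterate_add_apply] at hab
      obtain ⟨h1, _⟩ := hgg r r' hr hr' _ _ hab
      subst h1
      rcases le_total i i' with h | h
      · exact ⟨i' - i, Or.inl (by rw [← Function.iterate_add_apply, Nat.sub_add_cancel h])⟩
      · exact ⟨i - i', Or.inr (by rw [← Function.iterate_add_apply, Nat.sub_add_cancel h])⟩

end Pool.Agent.Lib.MP_d0d59f_nt.EO
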