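import Mathlib
import Pool.Agent.Lib.MP_d0d59f_nt.EO.Core

/-!
The counting bound: at most `C |d|^c X^(1-c)` points of a forward invariant set on which `T_d` is injective
up to one point lie in `[-X, X]`.
-/

namespace Pool.Agent.Lib.MP_d0d59f_nt.EO

theorem PowSav.mono {c C C' : ℝ} (h : PowSav c C) (hC : C ≤ C') : PowSav c C' := by
  intro d hd h3 B X hB hX
  have hd1 := one_le_absd hd
  have hlog : 0 ≤ Real.log (X / |(d : ℝ)|) :=
    Real.log_nonneg (by rw [le_div_iff₀ (by linarith)]; linarith)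
  refine le_trans ?_ ((h d hd h3 B X hB hX).trans ?_)
  · refine Nat.cast_le.2 (Set.ncard_le_ncard ?_ ((box_finite X).subset fun m hm => hm.1))
    exact fun x hx => ⟨hx.1, fun k hk => hx.2 k (hk.trans (mul_le_mul_of_nonneg_right hC hlog))⟩
  · have hB0 : 0 < B ^ c := by positivity
    have hX0 : 0 ≤ X := by linarith
    gcongr

/-- `T_d^n` is injective on the points of `S` whose first `n` terms avoid `s`. -/
theorem merge {d : ℤ} {S : Set ℤ} {s : ℤ} (hS : ∀ z ∈ S, T d z ∈ S)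
    (hinj : Set.InjOn (T d) (S \ {s})) :
    ∀ (n : ℕ) (z z' : ℤ), z ∈ S → z' ∈ S → (∀ j < n, (T d)^[j] z ≠ s) →
      (∀ j < n, (T d)^[j] z' ≠ s) → (T d)^[n] z = (T d)^[n] z' → z = z' := by
  intro n
  induction n with
  | zero => intro z z' _ _ _ _ h; exact h
  | succ n ih =>
    intro z z' hz hz' h1 h2 h
    have hTT : T d z = T d z' := by
      refine ih (T d z) (T d z') (hS z hz) (hS z' hz') ?_ ?_ ?_
      · intro j hj
        have := h1 (j + 1) (by omega)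
        rwa [Function.iterate_succ_apply] at this
      · intro j hj
        have := h2 (j + 1) (by omega)
        rwa [Function.iterate_succ_apply] at this
      · rwa [Function.iterate_succ_apply, Function.iterate_succ_apply] at h
    exact hinj ⟨hz, h1 0 (by omega)⟩ ⟨hz', h2 0 (by omega)⟩ hTT

/-- Number of points of `S` in `[-Y|d|, Y|d|]`. -/
noncomputable def Nm (d : ℤ) (S : Set ℤ) (Y : ℝ) : ℝ :=
  (Set.ncard {z : ℤ | z ∈ S ∧ |(z : ℝ)| ≤ Y * |(d : ℝ)|} : ℝ)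

theorem nm_triv {d : ℤ} (hd : Odd d) (S : Set ℤ) {Y : ℝ} (hY : 1 ≤ Y) :
    Nm d S Y ≤ 3 * (Y * |(d : ℝ)|) := by
  have hd1 := one_le_absd hd
  have h1 : 1 ≤ Y * |(d : ℝ)| := by nlinarith
  have h2 : Nm d S Y ≤ (Set.ncard {m : ℤ | |(m : ℝ)| ≤ Y * |(d : ℝ)|} : ℝ) := by
    unfold Nm
    exact Nat.cast_le.2 (Set.ncard_le_ncard (fun x hx => hx.2) (box_finite _))
  have h3 := box_card (X := Y * |(d : ℝ)|) (by linarith)
  linarith

theorem step {c C : ℝ} (hC : 1 ≤ C) (h : PowSav c C) {d : ℤ} (hd : Odd d) (h3 : ¬ (3 : ℤ) ∣ d)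
    (S : Set ℤ) (s : ℤ) (hS : ∀ z ∈ S, T d z ∈ S) (hinj : Set.InjOn (T d) (S \ {s}))
    (Y B : ℝ) (hY : 1 ≤ Y) (hB : 2 ≤ B) :
    Nm d S Y ≤ C * (Y * |(d : ℝ)|) / B ^ c + (C * Real.log Y + 1) ^ 2 * Nm d S B := by
  classical
  have hd1 := one_le_absd hd
  have hlog : 0 ≤ C * Real.log Y := mul_nonneg (by linarith) (Real.log_nonneg hY)
  set K : ℕ := ⌊C * Real.log Y⌋₊ with hK
  have hKle : (K : ℝ) ≤ C * Real.log Y := Nat.floor_le hlog
  have hXY : Y * |(d : ℝ)| / |(d : ℝ)| = Y := by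
    field_simp
  have hit : ∀ (n : ℕ) (z : ℤ), z ∈ S → (T d)^[n] z ∈ S := by
    intro n
    induction n with
    | zero => intro z hz; exact hz
    | succ n ih =>
      intro z hz
      rw [Function.iterate_succ_apply]
      exact ih _ (hS z hz)
  set E : Set ℤ := {x : ℤ | |(x : ℝ)| ≤ Y * |(d : ℝ)| ∧ ∀ k : ℕ,
    (k : ℝ) ≤ C * Real.log (Y * |(d : ℝ)| / |(d : ℝ)|) →
      B * |(d : ℝ)| < |(((T d)^[k] x : ℤ) : ℝ)|} with hE
  have hEc : (E.ncard : ℝ) ≤ C * (Y * |(d : ℝ)|) / B ^ c :=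
    h d hd h3 B (Y * |(d : ℝ)|) hB (by nlinarith)
  set A : ℕ × ℕ → Set ℤ := fun p => {z : ℤ | z ∈ S ∧ |(((T d)^[p.1] z : ℤ) : ℝ)| ≤ B * |(d : ℝ)| ∧
    (∀ j < p.2, (T d)^[j] z ≠ s) ∧ (p.2 = p.1 ∨ (p.2 < p.1 ∧ (T d)^[p.2] z = s))} with hA
  have hAc : ∀ p, ((A p).ncard : ℝ) ≤ Nm d S B := by
    intro p
    have : (A p).ncard ≤ Set.ncard {z : ℤ | z ∈ S ∧ |(z : ℝ)| ≤ B * |(d : ℝ)|} := by
      refine Set.ncard_le_ncard_of_injOn (fun z => (T d)^[p.1] z) ?_ ?_
        ((box_finite _).subset fun m hm => hm.2)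
      · intro z hz
        exact ⟨hit _ _ hz.1, hz.2.1⟩
      · intro z hz z' hz' hzz
        have hzz' : (T d)^[p.1] z = (T d)^[p.1] z' := hzz
        refine merge hS hinj p.2 z z' hz.1 hz'.1 hz.2.2.1 hz'.2.2.1 ?_
        rcases hz.2.2.2 with e | ⟨e1, e2⟩
        · rw [e]; exact hzz'
        · rcases hz'.2.2.2 with e' | ⟨e1', e2'⟩
          · omega
          · rw [e2, e2']
    unfold Nm
    exact_mod_cast this
  have hcover : {z : ℤ | z ∈ S ∧ |(z : ℝ)| ≤ Y * |(d : ℝ)|} ⊆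
      E ∪ ⋃ p ∈ (Finset.range (K + 1) ×ˢ Finset.range (K + 1)), A p := by
    rintro z ⟨hzS, hzY⟩
    by_cases hzE : z ∈ E
    · exact Or.inl hzE
    · right
      have : ∃ k : ℕ, (k : ℝ) ≤ C * Real.log (Y * |(d : ℝ)| / |(d : ℝ)|) ∧
          |(((T d)^[k] z : ℤ) : ℝ)| ≤ B * |(d : ℝ)| := by
        by_contra hcon
        push Not at hcon
        exact hzE ⟨hzY, hcon⟩
      obtain ⟨k, hk1, hk2⟩ := this
      rw [hXY] at hk1
      have hkK : k ≤ K := Nat.le_floor hk1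
      by_cases hs : ∃ i, i < k ∧ (T d)^[i] z = s
      · have hsp := Nat.find_spec hs
        have hmin : ∀ m, m < Nat.find hs → ¬ (m < k ∧ (T d)^[m] z = s) := fun m hm => Nat.find_min hs hm
        refine Set.mem_biUnion (x := (k, Nat.find hs)) ?_ ?_
        · rw [Finset.mem_coe, Finset.mem_product]
          exact ⟨Finset.mem_range.2 (by omega), Finset.mem_range.2 (by
            show Nat.find hs < K + 1
            omega)⟩
        · refine ⟨hzS, hk2, ?_, Or.inr hsp⟩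
          intro j hj he
          exact hmin j hj ⟨lt_trans hj hsp.1, he⟩
      · refine Set.mem_biUnion (x := (k, k)) ?_ ?_
        · rw [Finset.mem_coe, Finset.mem_product]
          exact ⟨Finset.mem_range.2 (by omega), Finset.mem_range.2 (by omega)⟩
        · refine ⟨hzS, hk2, ?_, Or.inl rfl⟩
          intro j hj he
          exact hs ⟨j, hj, he⟩
  have hEfin : E.Finite := (box_finite (Y * |(d : ℝ)|)).subset fun m hm => hm.1
  have hAfin' : ∀ p, (A p).Finite := by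
    intro p
    refine Set.Finite.of_injOn (f := fun z => (T d)^[p.1] z)
      (t := {z : ℤ | z ∈ S ∧ |(z : ℝ)| ≤ B * |(d : ℝ)|}) ?_ ?_
      ((box_finite _).subset fun m hm => hm.2)
    · intro z hz
      exact ⟨hit _ _ hz.1, hz.2.1⟩
    · intro z hz z' hz' hzz
      have hzz' : (T d)^[p.1] z = (T d)^[p.1] z' := hzz
      refine merge hS hinj p.2 z z' hz.1 hz'.1 hz.2.2.1 hz'.2.2.1 ?_
      rcases hz.2.2.2 with e | ⟨e1, e2⟩
      · rw [e]; exact hzz'
      · rcases hz'.2.2.2 with e' | ⟨e1', e2'⟩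
        · omega
        · rw [e2, e2']
  have hUfin : (⋃ p ∈ (Finset.range (K + 1) ×ˢ Finset.range (K + 1)), A p).Finite :=
    Set.Finite.biUnion (Finset.finite_toSet _) fun p _ => hAfin' p
  have h1 : Set.ncard {z : ℤ | z ∈ S ∧ |(z : ℝ)| ≤ Y * |(d : ℝ)|} ≤
      E.ncard + ∑ p ∈ (Finset.range (K + 1) ×ˢ Finset.range (K + 1)), (A p).ncard :=
    (Set.ncard_le_ncard hcover (hEfin.union hUfin)).trans
      ((Set.ncard_union_le _ _).trans (Nat.add_le_add_left (Finset.set_ncard_biUnion_le _ _) _))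
  have h2 : Nm d S Y ≤ (E.ncard : ℝ) +
      ∑ p ∈ (Finset.range (K + 1) ×ˢ Finset.range (K + 1)), ((A p).ncard : ℝ) := by
    unfold Nm
    exact_mod_cast h1
  have h4 : ∑ p ∈ (Finset.range (K + 1) ×ˢ Finset.range (K + 1)), ((A p).ncard : ℝ) ≤
      ((K : ℝ) + 1) ^ 2 * Nm d S B := by
    refine (Finset.sum_le_sum fun p _ => hAc p).trans ?_
    rw [Finset.sum_const, Finset.card_product, Finset.card_range, nsmul_eq_mul]
    push_cast
    apply le_of_eq
    ring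
  have hN0 : 0 ≤ Nm d S B := by
    unfold Nm
    positivity
  have h5 : ((K : ℝ) + 1) ^ 2 ≤ (C * Real.log Y + 1) ^ 2 := by
    have : (0 : ℝ) ≤ K := by positivity
    gcongr
  have h6 : ((K : ℝ) + 1) ^ 2 * Nm d S B ≤ (C * Real.log Y + 1) ^ 2 * Nm d S B :=
    mul_le_mul_of_nonneg_right h5 hN0
  linarith

end Pool.Agent.Lib.MP_d0d59f_nt.EO
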