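import Mathlib

/-!
The recursion `N(Y) ≤ C Y D / B^c + (C log Y + 1)^2 N(B)` gives `N(Y) ≤ A D Y^(1-c')` for `c' < min c 1`.
-/

namespace Pool.Agent.Lib.MP_d0d59f_nt.EO

open Real

theorem recur {c C c' : ℝ} (hC : 1 ≤ C) (hc' : 0 < c') (hcc : c' < c) (hc1 : c' < 1) :
    ∃ A : ℝ, 0 < A ∧ ∀ (D : ℝ) (N : ℝ → ℝ), 1 ≤ D → (∀ Y, 1 ≤ Y → N Y ≤ 3 * (Y * D)) →
      (∀ Y B, 1 ≤ Y → 2 ≤ B → N Y ≤ C * (Y * D) / B ^ c + (C * Real.log Y + 1) ^ 2 * N B) →
      ∀ Y, 1 ≤ Y → N Y ≤ A * D * Y ^ (1 - c') := by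
  set c1 : ℝ := min c 1 with hc1def
  have hc1c : c1 ≤ c := min_le_left _ _
  have hcc1 : c' < c1 := lt_min hcc hc1
  have hc1pos : 0 < c1 := hc'.trans hcc1
  set β : ℝ := c' / c1 with hβ
  have hβ0 : 0 < β := div_pos hc' hc1pos
  have hβ1 : β < 1 := (div_lt_one hc1pos).2 hcc1
  have hβc : c' ≤ β * c := by
    have : β * c1 = c' := div_mul_cancel₀ _ hc1pos.ne'
    nlinarith
  set δ : ℝ := (1 - β) * (1 - c') with hδ
  have hδ0 : 0 < δ := mul_pos (by linarith) (by linarith)
  set ε : ℝ := δ / 4 with hε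
  have hε0 : 0 < ε := by positivity
  set M : ℝ := (C / ε + 1) ^ 2 with hM
  have hM0 : 0 < M := by positivity
  have ev : ∀ᶠ Y : ℝ in Filter.atTop, 2 * M ≤ Y ^ (δ / 2) ∧ 2 ≤ Y ^ (1 - β) ∧ 2 ≤ Y ^ β :=
    ((tendsto_rpow_atTop (by positivity : 0 < δ / 2)).eventually_ge_atTop _).and
      (((tendsto_rpow_atTop (by linarith : 0 < 1 - β)).eventually_ge_atTop _).and
        ((tendsto_rpow_atTop hβ0).eventually_ge_atTop _))
  obtain ⟨Y1, hY1⟩ := Filter.eventually_atTop.1 ev
  set Y0 : ℝ := max Y1 1 with hY0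
  have hY01 : 1 ≤ Y0 := le_max_right _ _
  refine ⟨2 * C + 3 * Y0, by linarith, ?_⟩
  intro D N hD htriv hrec
  set A : ℝ := 2 * C + 3 * Y0 with hA
  have hA0 : 0 < A := by linarith
  have hsmall : ∀ Y, 1 ≤ Y → Y ≤ Y0 → N Y ≤ A * D * Y ^ (1 - c') := by
    intro Y hY hYY
    have h1 := htriv Y hY
    have h2 : (1 : ℝ) ≤ Y ^ (1 - c') := Real.one_le_rpow hY (by linarith)
    have h3 : 3 * (Y * D) ≤ A * D := by
      have : 3 * Y ≤ A := by linarith
      nlinarith
    have h4 : A * D ≤ A * D * Y ^ (1 - c') := by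
      have : 0 ≤ A * D := by positivity
      nlinarith
    linarith
  have main : ∀ (m : ℕ) (Y : ℝ), 1 ≤ Y → Y ≤ 2 ^ m * Y0 → N Y ≤ A * D * Y ^ (1 - c') := by
    intro m
    induction m with
    | zero =>
      intro Y hY hYY
      exact hsmall Y hY (by simpa using hYY)
    | succ m ih =>
      intro Y hY hYY
      rcases le_or_gt Y Y0 with hle | hgt
      · exact hsmall Y hY hle
      · obtain ⟨e1, e2, e3⟩ := hY1 Y ((le_max_left _ _).trans hgt.le)
        have hYpos : 0 < Y := by linarith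
        have hsplit : Y ^ β * Y ^ (1 - β) = Y := by
          rw [← Real.rpow_add hYpos, show β + (1 - β) = 1 by ring, Real.rpow_one]
        have hBpos : 0 < Y ^ β := by positivity
        have hB2 : Y ^ β ≤ 2 ^ m * Y0 := by
          rw [pow_succ] at hYY
          nlinarith
        have hN := ih (Y ^ β) (by linarith) hB2
        have hstep := hrec Y (Y ^ β) hY e3
        have hsplit2 : (Y ^ β) ^ (1 - c') * (Y ^ (δ / 2) * Y ^ (δ / 2)) = Y ^ (1 - c') := by
          rw [← Real.rpow_mul hYpos.le, ← Real.rpow_add hYpos, ← Real.rpow_add hYpos]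
          congr 1
          rw [hδ]
          ring
        -- first term
        have t1 : C * (Y * D) / (Y ^ β) ^ c ≤ C * D * Y ^ (1 - c') := by
          rw [← Real.rpow_mul hYpos.le]
          have h1 : Y ^ c' ≤ Y ^ (β * c) := Real.rpow_le_rpow_of_exponent_le hY hβc
          have h2 : 0 < Y ^ c' := by positivity
          have h3 : C * (Y * D) / Y ^ (β * c) ≤ C * (Y * D) / Y ^ c' := by
            have : 0 ≤ C * (Y * D) := by positivity
            gcongr
          refine h3.trans (le_of_eq ?_)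
          rw [Real.rpow_sub hYpos, Real.rpow_one]
          ring
        -- second term
        have hlog0 : 0 ≤ Real.log Y := Real.log_nonneg hY
        have t2 : (C * Real.log Y + 1) ^ 2 ≤ M * Y ^ (δ / 2) := by
          have h1 : Real.log Y ≤ Y ^ ε / ε := Real.log_le_rpow_div hYpos.le hε0
          have h2 : (1 : ℝ) ≤ Y ^ ε := Real.one_le_rpow hY hε0.le
          have h3 : C * Real.log Y + 1 ≤ (C / ε + 1) * Y ^ ε := by
            have h4 : C * Real.log Y ≤ C * (Y ^ ε / ε) := by gcongr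
            calc C * Real.log Y + 1 ≤ C * (Y ^ ε / ε) + Y ^ ε := by linarith
              _ = (C / ε + 1) * Y ^ ε := by ring
          have h5 : 0 ≤ C * Real.log Y + 1 := by positivity
          calc (C * Real.log Y + 1) ^ 2 ≤ ((C / ε + 1) * Y ^ ε) ^ 2 := by gcongr
            _ = M * (Y ^ ε * Y ^ ε) := by rw [hM]; ring
            _ = M * Y ^ (δ / 2) := by
              rw [← Real.rpow_add hYpos]
              congr 2
              rw [hε]
              ring
        have hBc : 0 ≤ (Y ^ β) ^ (1 - c') := by positivity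
        have t3 : (C * Real.log Y + 1) ^ 2 * N (Y ^ β) ≤ A * D * Y ^ (1 - c') / 2 := by
          have h1 : (C * Real.log Y + 1) ^ 2 * N (Y ^ β) ≤
              (C * Real.log Y + 1) ^ 2 * (A * D * (Y ^ β) ^ (1 - c')) :=
            mul_le_mul_of_nonneg_left hN (by positivity)
          have h2 : (C * Real.log Y + 1) ^ 2 * (A * D * (Y ^ β) ^ (1 - c')) ≤
              (M * Y ^ (δ / 2)) * (A * D * (Y ^ β) ^ (1 - c')) :=
            mul_le_mul_of_nonneg_right t2 (by positivity)
          have h3 : (M * Y ^ (δ / 2)) * (A * D * (Y ^ β) ^ (1 - c')) ≤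
              A * D * Y ^ (1 - c') / 2 := by
            rw [← hsplit2]
            have hp : 0 ≤ A * D * (Y ^ β) ^ (1 - c') * Y ^ (δ / 2) := by positivity
            nlinarith
          linarith
        have hAC : C * D * Y ^ (1 - c') ≤ A * D * Y ^ (1 - c') / 2 := by
          have h1 : 0 ≤ D * Y ^ (1 - c') := by positivity
          have h2 : C ≤ A / 2 := by linarith
          nlinarith
        linarith
  intro Y hY
  obtain ⟨m, hm⟩ := pow_unbounded_of_one_lt Y (by norm_num : (1 : ℝ) < 2)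
  refine main m Y hY ?_
  have : (0 : ℝ) < 2 ^ m := by positivity
  nlinarith

end Pool.Agent.Lib.MP_d0d59f_nt.EO
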