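import Mathlib
import Pool.Agent.Lib.MP_d0d59f_nt.EO.Count
import Pool.Agent.Lib.MP_d0d59f_nt.EO.Rec

/-!
At most `C |d|^c X^(1-c)` points in `[-X, X]`: general invariant sets, orbits, all periodic points.
-/

namespace Pool.Agent.Lib.MP_d0d59f_nt.EO

theorem inv_count {c C c' : ℝ} (h : PowSav c C) (hc' : 0 < c') (hcc : c' < c) (hc1 : c' < 1) :
    ∃ A : ℝ, 0 < A ∧ ∀ d : ℤ, Odd d → ¬ (3 : ℤ) ∣ d → ∀ (S : Set ℤ) (s : ℤ),
      (∀ z ∈ S, T d z ∈ S) → Set.InjOn (T d) (S \ {s}) → ∀ X : ℝ, |(d : ℝ)| ≤ X →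
        (Set.ncard {z : ℤ | z ∈ S ∧ |(z : ℝ)| ≤ X} : ℝ) ≤ A * |(d : ℝ)| ^ c' * X ^ (1 - c') := by
  obtain ⟨A, hA, hrec⟩ := recur (C := max C 1) (le_max_right _ _) hc' hcc hc1
  refine ⟨A, hA, ?_⟩
  intro d hd h3 S s hS hinj X hX
  have hd1 := one_le_absd hd
  have hDpos : 0 < |(d : ℝ)| := by linarith
  have hY : 1 ≤ X / |(d : ℝ)| := by
    rw [le_div_iff₀ hDpos]
    linarith
  have hXpos : 0 < X := by linarith
  have key := hrec |(d : ℝ)| (Nm d S) hd1 (fun Y hY => nm_triv hd S hY)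
    (fun Y B hY hB => step (le_max_right _ _) (h.mono (le_max_left _ _)) hd h3 S s hS hinj Y B hY hB)
    (X / |(d : ℝ)|) hY
  unfold Nm at key
  rw [div_mul_cancel₀ _ hDpos.ne'] at key
  refine key.trans (le_of_eq ?_)
  rw [Real.div_rpow hXpos.le hDpos.le, Real.rpow_sub hDpos, Real.rpow_one]
  have : |(d : ℝ)| ^ c' ≠ 0 := by positivity
  field_simp

/-- (E4b) all periodic points -/
theorem per_count {c C c' : ℝ} (h : PowSav c C) (hc' : 0 < c') (hcc : c' < c) (hc1 : c' < 1) :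
    ∃ A : ℝ, 0 < A ∧ ∀ d : ℤ, Odd d → ¬ (3 : ℤ) ∣ d → ∀ X : ℝ, |(d : ℝ)| ≤ X →
        (Set.ncard {z : ℤ | |(z : ℝ)| ≤ X ∧ ∃ q : ℕ, 0 < q ∧ (T d)^[q] z = z} : ℝ) ≤
          A * |(d : ℝ)| ^ c' * X ^ (1 - c') := by
  obtain ⟨A, hA, hmain⟩ := inv_count h hc' hcc hc1
  refine ⟨A, hA, fun d hd h3 X hX => ?_⟩
  have key := hmain d hd h3 (Per d) 0 (fun _ hz => per_T hz) ((per_inj d).mono Set.sdiff_subset) X hX
  have e : {z : ℤ | |(z : ℝ)| ≤ X ∧ ∃ q : ℕ, 0 < q ∧ (T d)^[q] z = z} =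
      {z : ℤ | z ∈ Per d ∧ |(z : ℝ)| ≤ X} := by
    ext z
    exact and_comm
  rw [e]
  exact key

/-- (E2) one orbit -/
theorem orbit_count {c C c' : ℝ} (h : PowSav c C) (hc' : 0 < c') (hcc : c' < c) (hc1 : c' < 1) :
    ∃ A : ℝ, 0 < A ∧ ∀ d : ℤ, Odd d → ¬ (3 : ℤ) ∣ d → ∀ (x : ℤ) (n : ℕ) (X : ℝ), |(d : ℝ)| ≤ X →
      Set.InjOn (fun i : ℕ => (T d)^[i] x) (Set.Iio n) →
        (((Finset.range n).filter (fun i => |(((T d)^[i] x : ℤ) : ℝ)| ≤ X)).card : ℝ) ≤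
          A * |(d : ℝ)| ^ c' * X ^ (1 - c') := by
  obtain ⟨A, hA, hmain⟩ := inv_count h hc' hcc hc1
  refine ⟨A, hA, fun d hd h3 x n X hX hn => ?_⟩
  obtain ⟨s, hs⟩ := orb_inj d x
  have key := hmain d hd h3 (Orb d x) s (fun z hz => orb_T hz) hs X hX
  refine le_trans (Nat.cast_le.2 ?_) key
  rw [← Set.ncard_coe_finset]
  refine Set.ncard_le_ncard_of_injOn (fun i : ℕ => (T d)^[i] x) ?_ ?_
    ((box_finite X).subset fun m hm => hm.2)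
  · intro i hi
    exact ⟨⟨i, rfl⟩, (Finset.mem_filter.1 (Finset.mem_coe.1 hi)).2⟩
  · refine hn.mono ?_
    intro i hi
    exact Finset.mem_range.1 (Finset.mem_filter.1 (Finset.mem_coe.1 hi)).1

end Pool.Agent.Lib.MP_d0d59f_nt.EO
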