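import Mathlib
import Pool.Agent.Lib.MP_d0d59f_nt.EO.Sparse

/-!
One pair of constants for the power saving and for the counting bounds.
-/

namespace Pool.Agent.Lib.MP_d0d59f_nt.EO

theorem PowSav.weaken {c c' C : ℝ} (hC : 0 ≤ C) (h : PowSav c C) (hc : c' ≤ c) : PowSav c' C := by
  intro d hd h3 B X hB hX
  have hd1 := one_le_absd hd
  have hX0 : 0 ≤ X := by linarith
  refine (h d hd h3 B X hB hX).trans ?_
  have h1 : B ^ c' ≤ B ^ c := Real.rpow_le_rpow_of_exponent_le (by linarith) hc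
  have h2 : 0 < B ^ c' := by positivity
  have h3 : 0 ≤ C * X := by positivity
  gcongr

theorem entropy_lt_one : 1 - Real.binEntropy (Real.log 2 / Real.log 3) / Real.log 2 < 1 := by
  have h2 : 0 < Real.log 2 := Real.log_pos (by norm_num)
  have h3 : Real.log 2 < Real.log 3 := Real.log_lt_log (by norm_num) (by norm_num)
  have hp0 : 0 < Real.log 2 / Real.log 3 := div_pos h2 (h2.trans h3)
  have hp1 : Real.log 2 / Real.log 3 < 1 := (div_lt_one (h2.trans h3)).2 h3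
  have := Real.binEntropy_pos hp0 hp1
  have h4 : 0 < Real.binEntropy (Real.log 2 / Real.log 3) / Real.log 2 := div_pos this h2
  linarith

theorem entropy_pos : 0 < 1 - Real.binEntropy (Real.log 2 / Real.log 3) / Real.log 2 := by
  have h2 : 0 < Real.log 2 := Real.log_pos (by norm_num)
  have h3 : Real.log 2 < Real.log 3 := Real.log_lt_log (by norm_num) (by norm_num)
  have h4 : Real.log 2 / Real.log 3 ≠ 2⁻¹ := by
    intro he
    rw [div_eq_iff (h2.trans h3).ne'] at he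
    have h5 : Real.log 3 = Real.log 4 := by
      have : Real.log 4 = 2 * Real.log 2 := by
        rw [show (4 : ℝ) = 2 ^ 2 by norm_num, Real.log_pow]
        norm_num
      linarith
    have h6 : Real.log 3 < Real.log 4 := Real.log_lt_log (by norm_num) (by norm_num)
    linarith
  have h5 := Real.binEntropy_lt_log_two.2 h4
  have h6 : Real.binEntropy (Real.log 2 / Real.log 3) / Real.log 2 < 1 := (div_lt_one h2).2 h5
  linarith

/-- One pair of constants for everything. -/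
theorem bundle {c C : ℝ}
    (h0 : 1 - Real.binEntropy (Real.log 2 / Real.log 3) / Real.log 2 < c) (hC : 0 < C)
    (h : PowSav c C) :
    ∃ c' : ℝ, 1 - Real.binEntropy (Real.log 2 / Real.log 3) / Real.log 2 < c' ∧ c' < 1 ∧
    ∃ A : ℝ, 0 < A ∧ PowSav c' A ∧
      ∀ d : ℤ, Odd d → ¬ (3 : ℤ) ∣ d → ∀ (S : Set ℤ) (s : ℤ),
        (∀ z ∈ S, T d z ∈ S) → Set.InjOn (T d) (S \ {s}) → ∀ X : ℝ, |(d : ℝ)| ≤ X →
          (Set.ncard {z : ℤ | z ∈ S ∧ |(z : ℝ)| ≤ X} : ℝ) ≤ A * |(d : ℝ)| ^ c' * X ^ (1 - c') := by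
  set c0 : ℝ := 1 - Real.binEntropy (Real.log 2 / Real.log 3) / Real.log 2 with hc0
  have h1 : c0 < 1 := entropy_lt_one
  have h2 : 0 < c0 := entropy_pos
  have h3 : c0 < min c 1 := lt_min h0 h1
  have hmc : min c 1 ≤ c := min_le_left _ _
  have hm1 : min c 1 ≤ 1 := min_le_right _ _
  obtain ⟨c', hc1, hc2⟩ := exists_between h3
  obtain ⟨A, hA, hmain⟩ := inv_count h (by linarith : 0 < c') (by linarith) (by linarith)
  refine ⟨c', hc1, by linarith, max A C, lt_max_of_lt_left hA, ?_, ?_⟩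
  · exact (h.weaken hC.le (by linarith)).mono (le_max_right _ _)
  · intro d hd h3 S s hS hinj X hX
    have hd1 := one_le_absd hd
    have hX0 : 0 ≤ X := by linarith
    refine (hmain d hd h3 S s hS hinj X hX).trans ?_
    have e1 : 0 ≤ |(d : ℝ)| ^ c' * X ^ (1 - c') := by positivity
    have e2 : A ≤ max A C := le_max_left _ _
    nlinarith [mul_le_mul_of_nonneg_right e2 e1]

/-- From the general form to one orbit: number of indices. -/
theorem orbit_of {d : ℤ} {R : ℝ → ℝ}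
    (hmain : ∀ (S : Set ℤ) (s : ℤ), (∀ z ∈ S, T d z ∈ S) → Set.InjOn (T d) (S \ {s}) →
      ∀ X : ℝ, |(d : ℝ)| ≤ X → (Set.ncard {z : ℤ | z ∈ S ∧ |(z : ℝ)| ≤ X} : ℝ) ≤ R X)
    (x : ℤ) (n : ℕ) (X : ℝ) (hX : |(d : ℝ)| ≤ X)
    (hn : Set.InjOn (fun i : ℕ => (T d)^[i] x) (Set.Iio n)) :
    (((Finset.range n).filter (fun i => |(((T d)^[i] x : ℤ) : ℝ)| ≤ X)).card : ℝ) ≤ R X := by
  obtain ⟨s, hs⟩ := orb_inj d x
  have key := hmain (Orb d x) s (fun z hz => orb_T hz) hs X hX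
  refine le_trans (Nat.cast_le.2 ?_) key
  rw [← Set.ncard_coe_finset]
  refine Set.ncard_le_ncard_of_injOn (fun i : ℕ => (T d)^[i] x) ?_ ?_
    ((box_finite X).subset fun m hm => hm.2)
  · intro i hi
    exact ⟨⟨i, rfl⟩, (Finset.mem_filter.1 (Finset.mem_coe.1 hi)).2⟩
  · refine hn.mono ?_
    intro i hi
    exact Finset.mem_range.1 (Finset.mem_filter.1 (Finset.mem_coe.1 hi)).1

/-- From the general form to one orbit: number of values (no hypothesis on repetitions). -/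
theorem orbit_set_of {d : ℤ} {R : ℝ → ℝ}
    (hmain : ∀ (S : Set ℤ) (s : ℤ), (∀ z ∈ S, T d z ∈ S) → Set.InjOn (T d) (S \ {s}) →
      ∀ X : ℝ, |(d : ℝ)| ≤ X → (Set.ncard {z : ℤ | z ∈ S ∧ |(z : ℝ)| ≤ X} : ℝ) ≤ R X)
    (x : ℤ) (X : ℝ) (hX : |(d : ℝ)| ≤ X) :
    (Set.ncard {z : ℤ | (∃ i : ℕ, (T d)^[i] x = z) ∧ |(z : ℝ)| ≤ X} : ℝ) ≤ R X := by
  obtain ⟨s, hs⟩ := orb_inj d x
  exact hmain (Orb d x) s (fun z hz => orb_T hz) hs X hX

/-- From the general form to all periodic points. -/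
theorem per_of {d : ℤ} {R : ℝ → ℝ}
    (hmain : ∀ (S : Set ℤ) (s : ℤ), (∀ z ∈ S, T d z ∈ S) → Set.InjOn (T d) (S \ {s}) →
      ∀ X : ℝ, |(d : ℝ)| ≤ X → (Set.ncard {z : ℤ | z ∈ S ∧ |(z : ℝ)| ≤ X} : ℝ) ≤ R X)
    (X : ℝ) (hX : |(d : ℝ)| ≤ X) :
    (Set.ncard {z : ℤ | (∃ q : ℕ, 0 < q ∧ (T d)^[q] z = z) ∧ |(z : ℝ)| ≤ X} : ℝ) ≤ R X :=
  hmain (Per d) 0 (fun _ hz => per_T hz) ((per_inj d).mono Set.sdiff_subset) X hX

end Pool.Agent.Lib.MP_d0d59f_nt.EO
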