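import Mathlib
import Pool.Agent.Lib.MP_d0d59f_nt.EO.Core

/-!
A set with few elements has a bounded reciprocal sum.
-/

set_option autoImplicit false

namespace Pool.Agent.Lib.MP_d0d59f_nt.EO

open Finset

/-- If `S` has at most `A D^c X^(1-c)` elements in `[-X, X]` for all `X ≥ D` then the sum of `1 / (|z| + D)`
over `z ∈ S` is bounded in terms of `A` and `c`. -/
theorem sum_of_count {c A D : ℝ} (hc : 0 < c) (hA : 0 ≤ A) (hD : 1 ≤ D) (S : Set ℤ)
    (h : ∀ X : ℝ, D ≤ X → (Set.ncard {z : ℤ | z ∈ S ∧ |(z : ℝ)| ≤ X} : ℝ) ≤ A * D ^ c * X ^ (1 - c))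
    (Z : Finset ℤ) (hZ : ∀ z ∈ Z, z ∈ S) :
    ∑ z ∈ Z, 1 / (|(z : ℝ)| + D) ≤ A * (1 + 2 / (1 - 2 ^ (-c))) := by
  classical
  have hD0 : 0 < D := by linarith
  set q : ℝ := 2 ^ (-c) with hq
  have hq0 : 0 < q := by positivity
  have hq1 : q < 1 := Real.rpow_lt_one_of_one_lt_of_neg (by norm_num) (by linarith)
  have hcard : ∀ (Y X : ℝ), D ≤ X → ((Z.filter (fun z : ℤ => Y < |(z : ℝ)| ∧ |(z : ℝ)| ≤ X)).card : ℝ) ≤
      A * D ^ c * X ^ (1 - c) := by
    intro Y X hX
    refine le_trans (Nat.cast_le.2 ?_) (h X hX)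
    rw [← Set.ncard_coe_finset]
    apply Set.ncard_le_ncard
    · intro z hz
      rw [Finset.mem_coe, Finset.mem_filter] at hz
      exact ⟨hZ z hz.1, hz.2.2⟩
    · exact (box_finite X).subset fun m hm => hm.2
  have hterm : ∀ (K : ℕ), ∑ z ∈ Z.filter (fun z : ℤ => 2 ^ K * D < |(z : ℝ)| ∧ |(z : ℝ)| ≤ 2 ^ (K + 1) * D),
      1 / (|(z : ℝ)| + D) ≤ 2 * A * q ^ K := by
    intro K
    have h2 : (0 : ℝ) < 2 ^ K := by positivity
    have h1 : D ≤ 2 ^ (K + 1) * D := by
      have : (1 : ℝ) ≤ 2 ^ (K + 1) := one_le_pow₀ (by norm_num)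
      nlinarith
    have h3 := hcard (2 ^ K * D) (2 ^ (K + 1) * D) h1
    have h4 : ∑ z ∈ Z.filter (fun z : ℤ => 2 ^ K * D < |(z : ℝ)| ∧ |(z : ℝ)| ≤ 2 ^ (K + 1) * D),
        1 / (|(z : ℝ)| + D) ≤
        ((Z.filter (fun z : ℤ => 2 ^ K * D < |(z : ℝ)| ∧ |(z : ℝ)| ≤ 2 ^ (K + 1) * D)).card : ℝ) *
          (1 / (2 ^ K * D)) := by
      rw [← nsmul_eq_mul]
      apply Finset.sum_le_card_nsmul
      intro z hz
      rw [Finset.mem_filter] at hz
      apply one_div_le_one_div_of_le (by positivity)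
      linarith [hz.2.1]
    refine h4.trans ?_
    have h5 : 0 ≤ 1 / (2 ^ K * D) := by positivity
    refine (mul_le_mul_of_nonneg_right h3 h5).trans (le_of_eq_of_le ?_
      (mul_le_mul_of_nonneg_right (mul_le_mul_of_nonneg_right
        (Real.rpow_le_rpow_of_exponent_le (by norm_num : (1 : ℝ) ≤ 2) (by linarith : 1 - c ≤ 1)) hA)
        (by positivity : 0 ≤ q ^ K) |>.trans_eq ?_))
    · rw [Real.mul_rpow (by positivity) hD0.le, Real.rpow_sub hD0, Real.rpow_one]
      have e1 : ((2 : ℝ) ^ (K + 1)) ^ (1 - c) = 2 ^ (1 - c) * (2 ^ K * q ^ K) := by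
        rw [hq, ← Real.rpow_natCast, ← Real.rpow_natCast, ← Real.rpow_natCast, ← Real.rpow_mul (by norm_num),
          ← Real.rpow_mul (by norm_num), ← Real.rpow_add (by norm_num), ← Real.rpow_add (by norm_num)]
        congr 1
        push_cast
        ring
      rw [e1]
      have : D ^ c ≠ 0 := by positivity
      field_simp
    · rw [Real.rpow_one]
  have key : ∀ K : ℕ, ∑ z ∈ Z.filter (fun z : ℤ => |(z : ℝ)| ≤ 2 ^ K * D), 1 / (|(z : ℝ)| + D) ≤
      A * (1 + 2 * ∑ j ∈ Finset.range K, q ^ j) := by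
    intro K
    induction K with
    | zero =>
      have h3 := hcard (-1) D le_rfl
      have e1 : Z.filter (fun z : ℤ => |(z : ℝ)| ≤ 2 ^ 0 * D) =
          Z.filter (fun z : ℤ => -1 < |(z : ℝ)| ∧ |(z : ℝ)| ≤ D) := by
        apply Finset.filter_congr
        intro z _
        rw [pow_zero, one_mul]
        constructor
        · intro hz
          exact ⟨by linarith [abs_nonneg (z : ℝ)], hz⟩
        · exact fun hz => hz.2
      rw [e1]
      have h4 : ∑ z ∈ Z.filter (fun z : ℤ => -1 < |(z : ℝ)| ∧ |(z : ℝ)| ≤ D), 1 / (|(z : ℝ)| + D) ≤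
          ((Z.filter (fun z : ℤ => -1 < |(z : ℝ)| ∧ |(z : ℝ)| ≤ D)).card : ℝ) * (1 / D) := by
        rw [← nsmul_eq_mul]
        apply Finset.sum_le_card_nsmul
        intro z hz
        apply one_div_le_one_div_of_le hD0
        linarith [abs_nonneg (z : ℝ)]
      refine h4.trans ?_
      refine (mul_le_mul_of_nonneg_right h3 (by positivity)).trans (le_of_eq ?_)
      rw [Finset.range_zero, Finset.sum_empty, Real.rpow_sub hD0, Real.rpow_one]
      have : D ^ c ≠ 0 := by positivity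
      field_simp
      ring
    | succ K ih =>
      rw [← Finset.sum_filter_add_sum_filter_not (Z.filter (fun z : ℤ => |(z : ℝ)| ≤ 2 ^ (K + 1) * D))
        (fun z : ℤ => |(z : ℝ)| ≤ 2 ^ K * D)]
      have e1 : (Z.filter (fun z : ℤ => |(z : ℝ)| ≤ 2 ^ (K + 1) * D)).filter (fun z : ℤ => |(z : ℝ)| ≤ 2 ^ K * D) =
          Z.filter (fun z : ℤ => |(z : ℝ)| ≤ 2 ^ K * D) := by
        rw [Finset.filter_filter]
        apply Finset.filter_congr
        intro z _
        constructor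
        · exact fun hz => hz.2
        · intro hz
          refine ⟨?_, hz⟩
          have : (0 : ℝ) < 2 ^ K * D := by positivity
          rw [pow_succ]
          linarith
      have e2 : (Z.filter (fun z : ℤ => |(z : ℝ)| ≤ 2 ^ (K + 1) * D)).filter (fun z : ℤ => ¬ |(z : ℝ)| ≤ 2 ^ K * D) =
          Z.filter (fun z : ℤ => 2 ^ K * D < |(z : ℝ)| ∧ |(z : ℝ)| ≤ 2 ^ (K + 1) * D) := by
        rw [Finset.filter_filter]
        apply Finset.filter_congr
        intro z _
        rw [not_le, and_comm]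
      rw [e1, e2, Finset.sum_range_succ]
      have := hterm K
      linarith
  obtain ⟨K, hK⟩ := pow_unbounded_of_one_lt (∑ z ∈ Z, |((z : ℤ) : ℝ)|) (by norm_num : (1 : ℝ) < 2)
  have e1 : Z.filter (fun z : ℤ => |(z : ℝ)| ≤ 2 ^ K * D) = Z := by
    apply Finset.filter_true_of_mem
    intro z hz
    have h1 : |(z : ℝ)| ≤ ∑ z ∈ Z, |((z : ℤ) : ℝ)| :=
      Finset.single_le_sum (f := fun z : ℤ => |(z : ℝ)|) (fun i _ => abs_nonneg _) hz
    have h2 : (0 : ℝ) < 2 ^ K := by positivity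
    nlinarith
  have h1 := key K
  rw [e1] at h1
  refine h1.trans ?_
  apply mul_le_mul_of_nonneg_left _ hA
  have h2 : (∑ j ∈ Finset.range K, q ^ j) * (1 - q) = 1 - q ^ K := geom_sum_mul_neg q K
  have h3 : ∑ j ∈ Finset.range K, q ^ j ≤ 1 / (1 - q) := by
    rw [le_div_iff₀ (by linarith), h2]
    have : 0 ≤ q ^ K := by positivity
    linarith
  have h4 : 2 / (1 - q) = 2 * (1 / (1 - q)) := by ring
  rw [h4]
  linarith

end Pool.Agent.Lib.MP_d0d59f_nt.EO
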