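import Mathlib
import Pool.Agent.Lib.MP_d0d59f_nt.EO.Bundle
import Pool.Agent.Lib.MP_d0d59f_nt.EO.SumAll

/-!
One pair of constants for the power saving, the counting bounds and the reciprocal sums.
-/

set_option autoImplicit false

namespace Pool.Agent.Lib.MP_d0d59f_nt.EO

/-- One pair of constants for everything, with the reciprocal sums. -/
theorem bundle2 {c C : ℝ}
    (h0 : 1 - Real.binEntropy (Real.log 2 / Real.log 3) / Real.log 2 < c) (hC : 0 < C)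
    (h : PowSav c C) :
    ∃ c' : ℝ, 1 - Real.binEntropy (Real.log 2 / Real.log 3) / Real.log 2 < c' ∧
    ∃ A : ℝ, 0 < A ∧ PowSav c' A ∧
      ∀ d : ℤ, Odd d → ¬ (3 : ℤ) ∣ d → ∀ (S : Set ℤ) (s : ℤ),
        (∀ z ∈ S, T d z ∈ S) → Set.InjOn (T d) (S \ {s}) →
        (∀ X : ℝ, |(d : ℝ)| ≤ X →
          (Set.ncard {z : ℤ | z ∈ S ∧ |(z : ℝ)| ≤ X} : ℝ) ≤ A * |(d : ℝ)| ^ c' * X ^ (1 - c')) ∧
        ∀ Z : Finset ℤ, (∀ z ∈ Z, z ∈ S) → ∑ z ∈ Z, 1 / (|(z : ℝ)| + |(d : ℝ)|) ≤ A := by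
  obtain ⟨c', hc', hc1, A, hA, hP, hS⟩ := bundle h0 hC h
  have hc0 : 0 < c' := entropy_pos.trans hc'
  set q : ℝ := 2 ^ (-c') with hq
  have hq1 : q < 1 := Real.rpow_lt_one_of_one_lt_of_neg (by norm_num) (by linarith)
  have hk : 1 ≤ 1 + 2 / (1 - q) := by
    have : 0 ≤ 2 / (1 - q) := div_nonneg (by norm_num) (by linarith)
    linarith
  have hA2 : A ≤ A * (1 + 2 / (1 - q)) := by nlinarith
  refine ⟨c', hc', A * (1 + 2 / (1 - q)), by positivity, hP.mono hA2, ?_⟩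
  intro d hd h3 S s hS1 hinj
  have hd1 := one_le_absd hd
  refine ⟨fun X hX => ?_, fun Z hZ => ?_⟩
  · refine (hS d hd h3 S s hS1 hinj X hX).trans ?_
    have hX0 : 0 ≤ X := by linarith
    have e1 : 0 ≤ |(d : ℝ)| ^ c' * X ^ (1 - c') := by positivity
    nlinarith [mul_le_mul_of_nonneg_right hA2 e1]
  · exact sum_of_count hc0 hA.le hd1 S (hS d hd h3 S s hS1 hinj) Z hZ

end Pool.Agent.Lib.MP_d0d59f_nt.EO
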