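import Mathlib
import Pool.Agent.Lib.MP_d0d59f_nt.Basic

/-!
# The growth of an orbit of the `3x+1` map without repetition

If the sum of `1 / (|x_i| + 1)` over the odd `x_i` is bounded then the `+1` costs only a constant factor.
-/

set_option autoImplicit false

namespace Pool.Agent.Lib.MP_d0d59f_nt.EO

open Filter Topology

theorem T_one_pos {y : ℤ} (hy : 0 < y) : 0 < T 1 y := by
  unfold T
  split_ifs with h
  · omega
  · omega

theorem T_one_odd {y : ℤ} (hy : y % 2 = 1) : 2 * T 1 y = 3 * y + 1 := by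
  unfold T
  rw [if_neg (by omega)]
  omega

/-- The positive integers are invariant under the `3x+1` map. -/
theorem iter_pos {x : ℤ} (hx : 0 < x) (n : ℕ) : 0 < (T 1)^[n] x := by
  induction n with
  | zero => exact hx
  | succ n ih =>
    rw [Function.iterate_succ_apply']
    exact T_one_pos ih

/-- The product of the `1 + 1 / (3 x_i)` over the odd `x_i` with `i < n`. -/
noncomputable def prodOdd (x : ℤ) (n : ℕ) : ℝ :=
  ∏ i ∈ (Finset.range n).filter (fun i => (T 1)^[i] x % 2 = 1), (1 + 1 / (3 * (((T 1)^[i] x : ℤ) : ℝ)))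

theorem prodOdd_succ (x : ℤ) (n : ℕ) : prodOdd x (n + 1) =
    if (T 1)^[n] x % 2 = 1 then prodOdd x n * (1 + 1 / (3 * (((T 1)^[n] x : ℤ) : ℝ))) else prodOdd x n := by
  unfold prodOdd
  rw [Finset.range_add_one, Finset.filter_insert]
  split_ifs with h
  · rw [Finset.prod_insert (by simp), mul_comm]
  · rfl

theorem ones_succ' (x : ℤ) (n : ℕ) : ones 1 x (n + 1) =
    if (T 1)^[n] x % 2 = 1 then ones 1 x n + 1 else ones 1 x n := by
  unfold ones
  rw [Finset.range_add_one, Finset.filter_insert]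
  split_ifs with h
  · rw [Finset.card_insert_of_notMem (by simp)]
  · rfl

theorem iter_eq {x : ℤ} (hx : 0 < x) (n : ℕ) :
    (((T 1)^[n] x : ℤ) : ℝ) = x * 3 ^ ones 1 x n / 2 ^ n * prodOdd x n := by
  induction n with
  | zero => simp [prodOdd, ones]
  | succ n ih =>
    rw [prodOdd_succ, ones_succ']
    have hy := iter_pos hx n
    have hy' : (0 : ℝ) < (((T 1)^[n] x : ℤ) : ℝ) := by exact_mod_cast hy
    rcases Int.emod_two_eq_zero_or_one ((T 1)^[n] x) with h | h
    · rw [if_neg (by omega), if_neg (by omega)]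
      have h1 : 2 * (T 1)^[n + 1] x = (T 1)^[n] x := by
        rw [Function.iterate_succ_apply']
        exact T_even h
      have h2 : (2 : ℝ) * (((T 1)^[n + 1] x : ℤ) : ℝ) = (((T 1)^[n] x : ℤ) : ℝ) := by exact_mod_cast h1
      rw [ih] at h2
      rw [pow_succ]
      field_simp
      field_simp at h2
      linarith
    · rw [if_pos h, if_pos h]
      have h1 : 2 * (T 1)^[n + 1] x = 3 * (T 1)^[n] x + 1 := by
        rw [Function.iterate_succ_apply']
        exact T_one_odd h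
      have h2 : (2 : ℝ) * (((T 1)^[n + 1] x : ℤ) : ℝ) = 3 * (((T 1)^[n] x : ℤ) : ℝ) + 1 := by
        exact_mod_cast h1
      have h3 : (x : ℝ) * 3 ^ (ones 1 x n + 1) / 2 ^ (n + 1) *
          (prodOdd x n * (1 + 1 / (3 * (((T 1)^[n] x : ℤ) : ℝ)))) =
          3 / 2 * (x * 3 ^ ones 1 x n / 2 ^ n * prodOdd x n) * (1 + 1 / (3 * (((T 1)^[n] x : ℤ) : ℝ))) := by
        rw [pow_succ, pow_succ]
        field_simp
      rw [h3, ← ih]
      field_simp
      linarith

theorem prodOdd_pos {x : ℤ} (hx : 0 < x) (n : ℕ) : 1 ≤ prodOdd x n := by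
  have h : ∏ i ∈ (Finset.range n).filter (fun i => (T 1)^[i] x % 2 = 1), (1 : ℝ) ≤ prodOdd x n := by
    unfold prodOdd
    apply Finset.prod_le_prod
    · intro i _
      exact zero_le_one
    · intro i _
      have hy' : (0 : ℝ) < (((T 1)^[i] x : ℤ) : ℝ) := by exact_mod_cast iter_pos hx i
      have : 0 ≤ 1 / (3 * (((T 1)^[i] x : ℤ) : ℝ)) := by positivity
      linarith
  rwa [Finset.prod_const_one] at h

theorem prodOdd_le {x : ℤ} (hx : 0 < x) (n : ℕ) {C : ℝ}
    (h : ∑ i ∈ (Finset.range n).filter (fun i => (T 1)^[i] x % 2 = 1),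
      1 / (|(((T 1)^[i] x : ℤ) : ℝ)| + |((1 : ℤ) : ℝ)|) ≤ C) : prodOdd x n ≤ Real.exp C := by
  have h1 : prodOdd x n ≤ ∏ i ∈ (Finset.range n).filter (fun i => (T 1)^[i] x % 2 = 1),
      Real.exp (1 / (|(((T 1)^[i] x : ℤ) : ℝ)| + |((1 : ℤ) : ℝ)|)) := by
    unfold prodOdd
    apply Finset.prod_le_prod
    · intro i _
      have hy' : (0 : ℝ) < (((T 1)^[i] x : ℤ) : ℝ) := by exact_mod_cast iter_pos hx i
      positivity
    · intro i _
      have hy' : (1 : ℝ) ≤ (((T 1)^[i] x : ℤ) : ℝ) := by exact_mod_cast iter_pos hx i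
      have h2 : 1 / (3 * (((T 1)^[i] x : ℤ) : ℝ)) ≤
          1 / (|(((T 1)^[i] x : ℤ) : ℝ)| + |((1 : ℤ) : ℝ)|) := by
        rw [abs_of_pos (by linarith), Int.cast_one, abs_one]
        apply one_div_le_one_div_of_le (by linarith)
        linarith
      have h3 := Real.add_one_le_exp (1 / (|(((T 1)^[i] x : ℤ) : ℝ)| + |((1 : ℤ) : ℝ)|))
      linarith
  refine h1.trans ?_
  rw [← Real.exp_sum]
  exact Real.exp_le_exp.2 h

/-- The formula for `T^n(x)`, for every integer `x`. -/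
theorem iter_eq_all (x : ℤ) (n : ℕ) :
    (((T 1)^[n] x : ℤ) : ℝ) = x * 3 ^ ones 1 x n / 2 ^ n * prodOdd x n := by
  induction n with
  | zero => simp [prodOdd, ones]
  | succ n ih =>
    rw [prodOdd_succ, ones_succ']
    rcases Int.emod_two_eq_zero_or_one ((T 1)^[n] x) with h | h
    · rw [if_neg (by omega), if_neg (by omega)]
      have h1 : 2 * (T 1)^[n + 1] x = (T 1)^[n] x := by
        rw [Function.iterate_succ_apply']
        exact T_even h
      have h2 : (2 : ℝ) * (((T 1)^[n + 1] x : ℤ) : ℝ) = (((T 1)^[n] x : ℤ) : ℝ) := by exact_mod_cast h1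
      rw [ih] at h2
      rw [pow_succ]
      field_simp
      field_simp at h2
      linarith
    · rw [if_pos h, if_pos h]
      have hy : (T 1)^[n] x ≠ 0 := by omega
      have hy' : (((T 1)^[n] x : ℤ) : ℝ) ≠ 0 := by exact_mod_cast hy
      have h1 : 2 * (T 1)^[n + 1] x = 3 * (T 1)^[n] x + 1 := by
        rw [Function.iterate_succ_apply']
        exact T_one_odd h
      have h2 : (2 : ℝ) * (((T 1)^[n + 1] x : ℤ) : ℝ) = 3 * (((T 1)^[n] x : ℤ) : ℝ) + 1 := by
        exact_mod_cast h1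
      have h3 : (x : ℝ) * 3 ^ (ones 1 x n + 1) / 2 ^ (n + 1) *
          (prodOdd x n * (1 + 1 / (3 * (((T 1)^[n] x : ℤ) : ℝ)))) =
          3 / 2 * (x * 3 ^ ones 1 x n / 2 ^ n * prodOdd x n) * (1 + 1 / (3 * (((T 1)^[n] x : ℤ) : ℝ))) := by
        rw [pow_succ, pow_succ]
        field_simp
      rw [h3, ← ih]
      field_simp
      linarith

theorem factor_bounds {y : ℤ} (hy : y % 2 = 1) :
    Real.exp (-(1 / (|(y : ℝ)| + 1))) ≤ |1 + 1 / (3 * (y : ℝ))| ∧
    |1 + 1 / (3 * (y : ℝ))| ≤ Real.exp (1 / (|(y : ℝ)| + 1)) := by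
  have hy0 : y ≠ 0 := by omega
  have hy1 : (1 : ℝ) ≤ |(y : ℝ)| := by exact_mod_cast Int.one_le_abs hy0
  have e1 : |1 / (3 * (y : ℝ))| = 1 / (3 * |(y : ℝ)|) := by
    rw [abs_div, abs_mul]
    norm_num
  have h0 : 0 ≤ 1 / (3 * |(y : ℝ)|) := by positivity
  have h1 : 1 / (3 * |(y : ℝ)|) ≤ 1 / (|(y : ℝ)| + 1) := by
    apply one_div_le_one_div_of_le (by linarith)
    linarith
  constructor
  · have h2 : Real.exp (-(1 / (|(y : ℝ)| + 1))) ≤ 1 / (1 + 1 / (|(y : ℝ)| + 1)) := by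
      rw [Real.exp_neg, ← one_div]
      apply one_div_le_one_div_of_le (by positivity)
      have := Real.add_one_le_exp (1 / (|(y : ℝ)| + 1))
      linarith
    have h3 : 1 / (1 + 1 / (|(y : ℝ)| + 1)) ≤ 1 - 1 / (3 * |(y : ℝ)|) := by
      have e2 : 1 / (1 + 1 / (|(y : ℝ)| + 1)) = (|(y : ℝ)| + 1) / (|(y : ℝ)| + 2) := by
        field_simp
        ring
      have e3 : 1 - 1 / (3 * |(y : ℝ)|) = (3 * |(y : ℝ)| - 1) / (3 * |(y : ℝ)|) := by
        field_simp
      rw [e2, e3, div_le_div_iff₀ (by positivity) (by positivity)]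
      nlinarith
    have h4 : 1 - 1 / (3 * |(y : ℝ)|) ≤ |1 + 1 / (3 * (y : ℝ))| := by
      have h5 := neg_abs_le (1 / (3 * (y : ℝ)))
      have h6 := le_abs_self (1 + 1 / (3 * (y : ℝ)))
      rw [e1] at h5
      linarith
    linarith
  · have h2 : |1 + 1 / (3 * (y : ℝ))| ≤ 1 + 1 / (3 * |(y : ℝ)|) := by
      refine (abs_add_le _ _).trans ?_
      rw [e1, abs_one]
    have h3 := Real.add_one_le_exp (1 / (|(y : ℝ)| + 1))
    linarith

theorem prodOdd_abs (x : ℤ) (n : ℕ) {C : ℝ}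
    (h : ∑ i ∈ (Finset.range n).filter (fun i => (T 1)^[i] x % 2 = 1),
      1 / (|(((T 1)^[i] x : ℤ) : ℝ)| + |((1 : ℤ) : ℝ)|) ≤ C) :
    (Real.exp C)⁻¹ ≤ |prodOdd x n| ∧ |prodOdd x n| ≤ Real.exp C := by
  have hone : |((1 : ℤ) : ℝ)| = 1 := by norm_num
  rw [hone] at h
  unfold prodOdd
  rw [Finset.abs_prod]
  constructor
  · have h1 : ∏ i ∈ (Finset.range n).filter (fun i => (T 1)^[i] x % 2 = 1),
        Real.exp (-(1 / (|(((T 1)^[i] x : ℤ) : ℝ)| + 1))) ≤
        ∏ i ∈ (Finset.range n).filter (fun i => (T 1)^[i] x % 2 = 1),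
          |1 + 1 / (3 * (((T 1)^[i] x : ℤ) : ℝ))| := by
      apply Finset.prod_le_prod
      · intro i _
        positivity
      · intro i hi
        exact (factor_bounds (Finset.mem_filter.1 hi).2).1
    refine le_trans ?_ h1
    rw [← Real.exp_sum, ← Real.exp_neg]
    apply Real.exp_le_exp.2
    rw [Finset.sum_neg_distrib]
    linarith
  · have h1 : ∏ i ∈ (Finset.range n).filter (fun i => (T 1)^[i] x % 2 = 1),
          |1 + 1 / (3 * (((T 1)^[i] x : ℤ) : ℝ))| ≤
        ∏ i ∈ (Finset.range n).filter (fun i => (T 1)^[i] x % 2 = 1),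
        Real.exp (1 / (|(((T 1)^[i] x : ℤ) : ℝ)| + 1)) := by
      apply Finset.prod_le_prod
      · intro i _
        positivity
      · intro i hi
        exact (factor_bounds (Finset.mem_filter.1 hi).2).2
    refine h1.trans ?_
    rw [← Real.exp_sum]
    exact Real.exp_le_exp.2 h

/-- **E3** for positive and negative integers (negative: the `3x-1` problem). -/
theorem growth_abs {C : ℝ}
    (hC : ∀ (x : ℤ) (n : ℕ), Set.InjOn (fun i => (T 1)^[i] x) (Set.Iio n) →
      ∑ i ∈ (Finset.range n).filter (fun i => (T 1)^[i] x % 2 = 1),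
        1 / (|(((T 1)^[i] x : ℤ) : ℝ)| + |((1 : ℤ) : ℝ)|) ≤ C)
    (x : ℤ) (n : ℕ) (hinj : Set.InjOn (fun i => (T 1)^[i] x) (Set.Iio n)) :
    (Real.exp C)⁻¹ * (|(x : ℝ)| * 3 ^ ones 1 x n / 2 ^ n) ≤ |(((T 1)^[n] x : ℤ) : ℝ)| ∧
    |(((T 1)^[n] x : ℤ) : ℝ)| ≤ Real.exp C * (|(x : ℝ)| * 3 ^ ones 1 x n / 2 ^ n) := by
  obtain ⟨h1, h2⟩ := prodOdd_abs x n (hC x n hinj)
  have h3 : (0 : ℝ) ≤ |(x : ℝ)| * 3 ^ ones 1 x n / 2 ^ n := by positivity
  have e : |(((T 1)^[n] x : ℤ) : ℝ)| = |(x : ℝ)| * 3 ^ ones 1 x n / 2 ^ n * |prodOdd x n| := by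
    rw [iter_eq_all x n, abs_mul, abs_div, abs_mul]
    have e1 : |(3 : ℝ) ^ ones 1 x n| = 3 ^ ones 1 x n := abs_of_pos (by positivity)
    have e2 : |(2 : ℝ) ^ n| = 2 ^ n := abs_of_pos (by positivity)
    rw [e1, e2]
  rw [e]
  constructor
  · rw [mul_comm]
    exact mul_le_mul_of_nonneg_left h1 h3
  · rw [mul_comm (Real.exp C)]
    exact mul_le_mul_of_nonneg_left h2 h3

/-- **E3.** -/
theorem growth {C : ℝ}
    (hC : ∀ (x : ℤ) (n : ℕ), Set.InjOn (fun i => (T 1)^[i] x) (Set.Iio n) →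
      ∑ i ∈ (Finset.range n).filter (fun i => (T 1)^[i] x % 2 = 1),
        1 / (|(((T 1)^[i] x : ℤ) : ℝ)| + |((1 : ℤ) : ℝ)|) ≤ C)
    (x : ℤ) (n : ℕ) (hx : 0 < x) (hinj : Set.InjOn (fun i => (T 1)^[i] x) (Set.Iio n)) :
    (x : ℝ) * 3 ^ ones 1 x n / 2 ^ n ≤ (((T 1)^[n] x : ℤ) : ℝ) ∧
    (((T 1)^[n] x : ℤ) : ℝ) ≤ Real.exp C * (x * 3 ^ ones 1 x n / 2 ^ n) := by
  have h1 := prodOdd_pos hx n
  have h2 := prodOdd_le hx n (hC x n hinj)
  have hx' : (0 : ℝ) < x := by exact_mod_cast hx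
  have h3 : (0 : ℝ) < (x : ℝ) * 3 ^ ones 1 x n / 2 ^ n := by positivity
  rw [iter_eq hx n]
  constructor
  · nlinarith
  · nlinarith

/-- The limit of `T^n(x) 2^n / 3^(ones)` along an orbit without repetition. -/
theorem growth_limit {C : ℝ}
    (hC : ∀ (x : ℤ) (n : ℕ), Set.InjOn (fun i => (T 1)^[i] x) (Set.Iio n) →
      ∑ i ∈ (Finset.range n).filter (fun i => (T 1)^[i] x % 2 = 1),
        1 / (|(((T 1)^[i] x : ℤ) : ℝ)| + |((1 : ℤ) : ℝ)|) ≤ C)
    (x : ℤ) (hx : 0 < x) (hinj : Function.Injective (fun i : ℕ => (T 1)^[i] x)) :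
    ∃ L : ℝ, (x : ℝ) ≤ L ∧ L ≤ Real.exp C * x ∧
      Tendsto (fun n : ℕ => (((T 1)^[n] x : ℤ) : ℝ) * 2 ^ n / 3 ^ ones 1 x n) atTop (𝓝 L) := by
  have hx' : (0 : ℝ) < x := by exact_mod_cast hx
  have he : (fun n : ℕ => (((T 1)^[n] x : ℤ) : ℝ) * 2 ^ n / 3 ^ ones 1 x n) =
      fun n => x * prodOdd x n := by
    funext n
    rw [iter_eq hx n]
    field_simp
  have hmono : Monotone (prodOdd x) := by
    apply monotone_nat_of_le_succ
    intro n
    rw [prodOdd_succ]
    split_ifs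
    · have h1 := prodOdd_pos hx n
      have hy' : (0 : ℝ) < (((T 1)^[n] x : ℤ) : ℝ) := by exact_mod_cast iter_pos hx n
      have : 0 ≤ 1 / (3 * (((T 1)^[n] x : ℤ) : ℝ)) := by positivity
      nlinarith
    · exact le_rfl
  have hbd : ∀ n, prodOdd x n ≤ Real.exp C := fun n => prodOdd_le hx n (hC x n hinj.injOn)
  have ht : Tendsto (prodOdd x) atTop (𝓝 (⨆ n, prodOdd x n)) :=
    tendsto_atTop_ciSup hmono ⟨Real.exp C, by rintro _ ⟨n, rfl⟩; exact hbd n⟩
  refine ⟨x * ⨆ n, prodOdd x n, ?_, ?_, ?_⟩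
  · have h1 : 1 ≤ ⨆ n, prodOdd x n := ge_of_tendsto' ht fun n => prodOdd_pos hx n
    nlinarith
  · have h1 : ⨆ n, prodOdd x n ≤ Real.exp C := le_of_tendsto' ht hbd
    nlinarith
  · rw [he]
    exact ht.const_mul _

/-- Along an orbit without repetition, for every odd `d`, the quotient `T^n(x) 2^n / 3^(ones)` has a limit
different from `0`, if the sum of `1 / (|x_i| + |d|)` over the odd `x_i` is bounded. -/
theorem limit_general {d : ℤ} (hd : Odd d) {C : ℝ}
    (hC : ∀ (x : ℤ) (n : ℕ), Set.InjOn (fun i => (T d)^[i] x) (Set.Iio n) →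
      ∑ i ∈ (Finset.range n).filter (fun i => (T d)^[i] x % 2 = 1),
        1 / (|(((T d)^[i] x : ℤ) : ℝ)| + |(d : ℝ)|) ≤ C)
    (x : ℤ) (hinj : Function.Injective (fun i : ℕ => (T d)^[i] x)) :
    ∃ L : ℝ, L ≠ 0 ∧
      Tendsto (fun n : ℕ => (((T d)^[n] x : ℤ) : ℝ) * 2 ^ n / 3 ^ ones d x n) atTop (𝓝 L) := by
  have hne : ∀ n, (T d)^[n] x ≠ 0 := by
    intro n h
    have h1 : (T d)^[n + 1] x = (T d)^[n] x := by
      rw [Function.iterate_succ_apply', h]
      simp [T]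
    have h2 := hinj h1
    omega
  have hne' : ∀ n, (((T d)^[n] x : ℤ) : ℝ) ≠ 0 := fun n => by exact_mod_cast hne n
  have hd1 : (1 : ℝ) ≤ |(d : ℝ)| := by
    have h0 : d ≠ 0 := by
      rintro rfl
      exact absurd hd (by decide)
    have : (1 : ℤ) ≤ |d| := Int.one_le_abs h0
    exact_mod_cast this
  set u : ℕ → ℝ := fun n => (((T d)^[n] x : ℤ) : ℝ) * 2 ^ n / 3 ^ ones d x n with hu
  have hu0 : ∀ n, u n ≠ 0 := fun n => by
    simp only [hu]
    have := hne' n
    positivity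
  set b : ℕ → ℝ := fun n => if (T d)^[n] x % 2 = 1 then
    1 / (|(((T d)^[n] x : ℤ) : ℝ)| + |(d : ℝ)|) else 0 with hb
  have hb0 : ∀ n, 0 ≤ b n := fun n => by
    simp only [hb]
    split_ifs
    · positivity
    · exact le_rfl
  have hbs : Summable b := by
    apply summable_of_sum_range_le hb0 (c := C)
    intro n
    have h1 := hC x n hinj.injOn
    rwa [Finset.sum_filter] at h1
  set r : ℕ → ℝ := fun n => if (T d)^[n] x % 2 = 1 then 1 + d / (3 * (((T d)^[n] x : ℤ) : ℝ)) else 1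
    with hr
  have hur : ∀ n, u (n + 1) = u n * r n := by
    intro n
    simp only [hu, hr]
    rw [ones_succ]
    rcases Int.emod_two_eq_zero_or_one ((T d)^[n] x) with h | h
    · rw [if_neg (by omega), if_neg (by omega), add_zero, mul_one]
      have h1 : 2 * (T d)^[n + 1] x = (T d)^[n] x := by
        rw [Function.iterate_succ_apply']
        exact T_even h
      have h2 : (2 : ℝ) * (((T d)^[n + 1] x : ℤ) : ℝ) = (((T d)^[n] x : ℤ) : ℝ) := by exact_mod_cast h1
      rw [← h2, pow_succ]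
      ring
    · rw [if_pos h, if_pos h]
      have h1 : 2 * (T d)^[n + 1] x = 3 * (T d)^[n] x + d := by
        rw [Function.iterate_succ_apply']
        exact T_odd hd h
      have h2 : (2 : ℝ) * (((T d)^[n + 1] x : ℤ) : ℝ) = 3 * (((T d)^[n] x : ℤ) : ℝ) + d := by
        exact_mod_cast h1
      have h3 := hne' n
      have h4 : (((T d)^[n + 1] x : ℤ) : ℝ) = (3 * (((T d)^[n] x : ℤ) : ℝ) + d) / 2 := by linarith
      rw [h4, pow_succ, pow_succ]
      field_simp
  have hlarge : ∀ᶠ n in atTop, |(d : ℝ)| < |(((T d)^[n] x : ℤ) : ℝ)| := by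
    rw [← Nat.cofinite_eq_atTop]
    have h1 := hinj.tendsto_cofinite
    have h2 : (Set.Icc (-|d|) |d|)ᶜ ∈ (cofinite : Filter ℤ) :=
      (Set.finite_Icc (-|d|) |d|).compl_mem_cofinite
    filter_upwards [h1 h2] with n hn
    have h3 : ¬ (|(T d)^[n] x| ≤ |d|) := fun h => hn (Set.mem_Icc.2 (abs_le.1 h))
    push Not at h3
    exact_mod_cast h3
  obtain ⟨N, hN⟩ := eventually_atTop.1 hlarge
  have hr1 : ∀ n, N ≤ n → 2 / 3 ≤ r n ∧ |r n - 1| ≤ |(d : ℝ)| * b n := by
    intro n hn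
    have h1 := hN n hn
    simp only [hr, hb]
    split_ifs with h
    · have h2 : 0 < |(((T d)^[n] x : ℤ) : ℝ)| := abs_pos.2 (hne' n)
      have h3 : |(d : ℝ) / (3 * (((T d)^[n] x : ℤ) : ℝ))| = |(d : ℝ)| / (3 * |(((T d)^[n] x : ℤ) : ℝ)|) := by
        rw [abs_div, abs_mul]
        norm_num
      have h4 : |(d : ℝ)| / (3 * |(((T d)^[n] x : ℤ) : ℝ)|) ≤ 1 / 3 := by
        rw [div_le_div_iff₀ (by positivity) (by norm_num)]
        linarith
      constructor
      · have h5 := neg_abs_le ((d : ℝ) / (3 * (((T d)^[n] x : ℤ) : ℝ)))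
        rw [h3] at h5
        linarith
      · rw [add_sub_cancel_left, h3, mul_one_div]
        apply div_le_div_of_nonneg_left (abs_nonneg _) (by positivity)
        linarith
    · norm_num
  have hlog : ∀ n, N ≤ n → |Real.log (r n)| ≤ 2 * (|(d : ℝ)| * b n) := by
    intro n hn
    obtain ⟨h1, h2⟩ := hr1 n hn
    have h3 : 0 < r n := by linarith
    have h4 : Real.log (r n) ≤ r n - 1 := Real.log_le_sub_one_of_pos h3
    have h5 : 1 - (r n)⁻¹ ≤ Real.log (r n) := Real.one_sub_inv_le_log_of_pos h3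
    have h6 : |1 - (r n)⁻¹| ≤ 3 / 2 * |r n - 1| := by
      have h7 : 1 - (r n)⁻¹ = (r n - 1) * (r n)⁻¹ := by field_simp
      rw [h7, abs_mul, abs_of_pos (inv_pos.2 h3), mul_comm]
      apply mul_le_mul_of_nonneg_right _ (abs_nonneg _)
      rw [inv_le_comm₀ h3 (by norm_num)]
      norm_num
      exact h1
    have h8 := neg_abs_le (1 - (r n)⁻¹)
    have h9 := le_abs_self (r n - 1)
    rw [abs_le]
    have h10 := abs_nonneg (r n - 1)
    constructor <;> linarith
  have hsum : Summable (fun m => Real.log (r (N + m))) := by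
    apply Summable.of_norm_bounded (g := fun m => 2 * (|(d : ℝ)| * b (N + m)))
    · apply Summable.mul_left
      apply Summable.mul_left
      have := (summable_nat_add_iff N).2 hbs
      simpa only [add_comm] using this
    · intro m
      rw [Real.norm_eq_abs]
      exact hlog _ (Nat.le_add_right _ _)
  have hprod : ∀ m, u (N + m) = u N * Real.exp (∑ k ∈ Finset.range m, Real.log (r (N + k))) := by
    intro m
    induction m with
    | zero => simp
    | succ m ih =>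
      have h1 : 0 < r (N + m) := by linarith [(hr1 (N + m) (Nat.le_add_right _ _)).1]
      rw [← add_assoc, hur, ih, Finset.sum_range_succ, Real.exp_add, Real.exp_log h1]
      ring
  refine ⟨u N * Real.exp (∑' m, Real.log (r (N + m))), mul_ne_zero (hu0 N) (Real.exp_ne_zero _), ?_⟩
  have h1 : Tendsto (fun m => u (N + m)) atTop
      (𝓝 (u N * Real.exp (∑' m, Real.log (r (N + m))))) := by
    have h2 := hsum.hasSum.tendsto_sum_nat
    have h3 := ((Real.continuous_exp.tendsto _).comp h2).const_mul (u N)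
    refine h3.congr fun m => ?_
    rw [hprod m]
    rfl
  have h2 : Tendsto (fun m => u (m + N)) atTop
      (𝓝 (u N * Real.exp (∑' m, Real.log (r (N + m))))) := by
    refine h1.congr fun m => ?_
    rw [add_comm]
  exact (tendsto_add_atTop_iff_nat N).1 h2

end Pool.Agent.Lib.MP_d0d59f_nt.EO
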