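import Mathlib
import Pool.Agent.Lib.MP_d0d59f_nt.EO.Growth

/-!
# The growth of an orbit of `T_d` without repetition, for every odd `d` not divisible by `3`
-/

set_option autoImplicit false

namespace Pool.Agent.Lib.MP_d0d59f_nt.EO

/-- The product of the `1 + d / (3 x_i)` over the odd `x_i` with `i < n`. -/
noncomputable def prodOddD (d x : ℤ) (n : ℕ) : ℝ :=
  ∏ i ∈ (Finset.range n).filter (fun i => (T d)^[i] x % 2 = 1), (1 + d / (3 * (((T d)^[i] x : ℤ) : ℝ)))

theorem prodOddD_succ (d x : ℤ) (n : ℕ) : prodOddD d x (n + 1) =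
    if (T d)^[n] x % 2 = 1 then prodOddD d x n * (1 + d / (3 * (((T d)^[n] x : ℤ) : ℝ)))
    else prodOddD d x n := by
  unfold prodOddD
  rw [Finset.range_add_one, Finset.filter_insert]
  split_ifs with h
  · rw [Finset.prod_insert (by simp), mul_comm]
  · rfl

theorem onesD_succ' (d x : ℤ) (n : ℕ) : ones d x (n + 1) =
    if (T d)^[n] x % 2 = 1 then ones d x n + 1 else ones d x n := by
  unfold ones
  rw [Finset.range_add_one, Finset.filter_insert]
  split_ifs with h
  · rw [Finset.card_insert_of_notMem (by simp)]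
  · rfl

/-- The formula for `T_d^n(x)`. -/
theorem iter_eq_D {d : ℤ} (hd : Odd d) (x : ℤ) (n : ℕ) :
    (((T d)^[n] x : ℤ) : ℝ) = x * 3 ^ ones d x n / 2 ^ n * prodOddD d x n := by
  induction n with
  | zero => simp [prodOddD, ones]
  | succ n ih =>
    rw [prodOddD_succ, onesD_succ']
    rcases Int.emod_two_eq_zero_or_one ((T d)^[n] x) with h | h
    · rw [if_neg (by omega), if_neg (by omega)]
      have h1 : 2 * (T d)^[n + 1] x = (T d)^[n] x := by
        rw [Function.iterate_succ_apply']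
        exact T_even h
      have h2 : (2 : ℝ) * (((T d)^[n + 1] x : ℤ) : ℝ) = (((T d)^[n] x : ℤ) : ℝ) := by exact_mod_cast h1
      rw [ih] at h2
      rw [pow_succ]
      field_simp
      field_simp at h2
      linarith
    · rw [if_pos h, if_pos h]
      have hy : (T d)^[n] x ≠ 0 := by omega
      have hy' : (((T d)^[n] x : ℤ) : ℝ) ≠ 0 := by exact_mod_cast hy
      have h1 : 2 * (T d)^[n + 1] x = 3 * (T d)^[n] x + d := by
        rw [Function.iterate_succ_apply']
        exact T_odd hd h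
      have h2 : (2 : ℝ) * (((T d)^[n + 1] x : ℤ) : ℝ) = 3 * (((T d)^[n] x : ℤ) : ℝ) + d := by
        exact_mod_cast h1
      have h3 : (x : ℝ) * 3 ^ (ones d x n + 1) / 2 ^ (n + 1) *
          (prodOddD d x n * (1 + d / (3 * (((T d)^[n] x : ℤ) : ℝ)))) =
          3 / 2 * (x * 3 ^ ones d x n / 2 ^ n * prodOddD d x n) *
            (1 + d / (3 * (((T d)^[n] x : ℤ) : ℝ))) := by
        rw [pow_succ, pow_succ]
        field_simp
      rw [h3, ← ih]
      field_simp
      linarith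

theorem factor_bounds_D {d y : ℤ} (h3 : ¬ (3 : ℤ) ∣ d) (hy : y % 2 = 1) :
    Real.exp (-(6 * (d : ℝ) ^ 2 * (1 / (|(y : ℝ)| + |(d : ℝ)|)))) ≤ |1 + d / (3 * (y : ℝ))| ∧
    |1 + d / (3 * (y : ℝ))| ≤ Real.exp (6 * (d : ℝ) ^ 2 * (1 / (|(y : ℝ)| + |(d : ℝ)|))) := by
  have hy0 : y ≠ 0 := by omega
  have hy1 : (1 : ℝ) ≤ |(y : ℝ)| := by exact_mod_cast Int.one_le_abs hy0
  have hd0 : d ≠ 0 := by
    rintro rfl
    exact h3 (dvd_zero 3)
  have hd1 : (1 : ℝ) ≤ |(d : ℝ)| := by exact_mod_cast Int.one_le_abs hd0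
  set a : ℝ := |(y : ℝ)| with ha
  set b : ℝ := |(d : ℝ)| with hb
  have hb2 : (d : ℝ) ^ 2 = b ^ 2 := (sq_abs _).symm
  rw [hb2]
  have e1 : |(d : ℝ) / (3 * (y : ℝ))| = b / (3 * a) := by
    rw [abs_div, abs_mul, ha, hb]
    norm_num
  have hyne : (y : ℝ) ≠ 0 := by exact_mod_cast hy0
  constructor
  · rcases le_or_gt b a with hba | hba
    · have h4 : b / (3 * a) ≤ 1 / 3 := by
        rw [div_le_div_iff₀ (by positivity) (by norm_num)]
        linarith
      have h5 : 1 - b / (3 * a) ≤ |1 + d / (3 * (y : ℝ))| := by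
        have h5 := neg_abs_le ((d : ℝ) / (3 * (y : ℝ)))
        have h6 := le_abs_self (1 + (d : ℝ) / (3 * (y : ℝ)))
        rw [e1] at h5
        linarith
      refine le_trans ?_ h5
      set t : ℝ := b / (3 * a) with ht
      have ht0 : 0 ≤ t := by positivity
      -- `exp (-u) ≤ 1 / (1 + u)` with `u = 3 t / 2`
      have h6 : Real.exp (-(3 / 2 * t)) ≤ 1 / (1 + 3 / 2 * t) := by
        rw [Real.exp_neg, ← one_div]
        apply one_div_le_one_div_of_le (by positivity)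
        have := Real.add_one_le_exp (3 / 2 * t)
        linarith
      have h7 : 1 / (1 + 3 / 2 * t) ≤ 1 - t := by
        rw [div_le_iff₀ (by positivity)]
        nlinarith
      refine le_trans (Real.exp_le_exp.2 ?_) (h6.trans h7)
      have h8 : 3 / 2 * t ≤ 6 * b ^ 2 * (1 / (a + b)) := by
        rw [ht, mul_one_div, mul_div_assoc', div_le_div_iff₀ (by positivity) (by positivity)]
        have h10 : b * a ≤ b ^ 2 * a := by nlinarith [mul_nonneg (by linarith : 0 ≤ b) (by linarith : 0 ≤ a)]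
        have h11 : b * b ≤ b ^ 2 * a := by nlinarith [mul_nonneg (by positivity : 0 ≤ b ^ 2) (by linarith : 0 ≤ a - 1)]
        nlinarith
      linarith
    · have h4 : 1 / (3 * b) ≤ |1 + d / (3 * (y : ℝ))| := by
        have e2 : (1 : ℝ) + d / (3 * (y : ℝ)) = ((3 * y + d : ℤ) : ℝ) / (3 * y) := by
          push_cast
          field_simp
        have h5 : 3 * y + d ≠ 0 := by
          intro h
          apply h3
          exact ⟨-y, by omega⟩
        have h6 : (1 : ℝ) ≤ |((3 * y + d : ℤ) : ℝ)| := by exact_mod_cast Int.one_le_abs h5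
        rw [e2, abs_div, abs_mul]
        have e3 : |(3 : ℝ)| = 3 := by norm_num
        rw [e3]
        apply div_le_div₀ (abs_nonneg _) h6 (by positivity)
        linarith
      refine le_trans ?_ h4
      have h5 : Real.exp (-(3 * b)) ≤ 1 / (3 * b) := by
        rw [Real.exp_neg, ← one_div]
        apply one_div_le_one_div_of_le (by positivity)
        have := Real.add_one_le_exp (3 * b)
        linarith
      refine le_trans (Real.exp_le_exp.2 ?_) h5
      have h8 : 3 * b ≤ 6 * b ^ 2 * (1 / (a + b)) := by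
        rw [mul_one_div, le_div_iff₀ (by positivity)]
        nlinarith
      linarith
  · have h2 : |1 + d / (3 * (y : ℝ))| ≤ 1 + b / (3 * a) := by
      refine (abs_add_le _ _).trans ?_
      rw [e1, abs_one]
    have h3 := Real.add_one_le_exp (b / (3 * a))
    have h4 : |1 + d / (3 * (y : ℝ))| ≤ Real.exp (b / (3 * a)) := by linarith
    refine h4.trans (Real.exp_le_exp.2 ?_)
    rw [mul_one_div, div_le_div_iff₀ (by positivity) (by positivity)]
    have h10 : b * a ≤ b ^ 2 * a := by nlinarith [mul_nonneg (by linarith : 0 ≤ b) (by linarith : 0 ≤ a)]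
    have h11 : b * b ≤ b ^ 2 * a := by nlinarith [mul_nonneg (by positivity : 0 ≤ b ^ 2) (by linarith : 0 ≤ a - 1)]
    nlinarith

theorem prodOddD_abs {d : ℤ} (h3 : ¬ (3 : ℤ) ∣ d) (x : ℤ) (n : ℕ) {C : ℝ}
    (h : ∑ i ∈ (Finset.range n).filter (fun i => (T d)^[i] x % 2 = 1),
      1 / (|(((T d)^[i] x : ℤ) : ℝ)| + |(d : ℝ)|) ≤ C) :
    (Real.exp (6 * (d : ℝ) ^ 2 * C))⁻¹ ≤ |prodOddD d x n| ∧
    |prodOddD d x n| ≤ Real.exp (6 * (d : ℝ) ^ 2 * C) := by
  have h6 : 0 ≤ 6 * (d : ℝ) ^ 2 := by positivity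
  unfold prodOddD
  rw [Finset.abs_prod]
  constructor
  · have h1 : ∏ i ∈ (Finset.range n).filter (fun i => (T d)^[i] x % 2 = 1),
        Real.exp (-(6 * (d : ℝ) ^ 2 * (1 / (|(((T d)^[i] x : ℤ) : ℝ)| + |(d : ℝ)|)))) ≤
        ∏ i ∈ (Finset.range n).filter (fun i => (T d)^[i] x % 2 = 1),
          |1 + d / (3 * (((T d)^[i] x : ℤ) : ℝ))| := by
      apply Finset.prod_le_prod
      · intro i _
        positivity
      · intro i hi
        exact (factor_bounds_D h3 (Finset.mem_filter.1 hi).2).1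
    refine le_trans ?_ h1
    rw [← Real.exp_sum, ← Real.exp_neg]
    apply Real.exp_le_exp.2
    rw [Finset.sum_neg_distrib, ← Finset.mul_sum]
    have := mul_le_mul_of_nonneg_left h h6
    linarith
  · have h1 : ∏ i ∈ (Finset.range n).filter (fun i => (T d)^[i] x % 2 = 1),
          |1 + d / (3 * (((T d)^[i] x : ℤ) : ℝ))| ≤
        ∏ i ∈ (Finset.range n).filter (fun i => (T d)^[i] x % 2 = 1),
        Real.exp (6 * (d : ℝ) ^ 2 * (1 / (|(((T d)^[i] x : ℤ) : ℝ)| + |(d : ℝ)|))) := by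
      apply Finset.prod_le_prod
      · intro i _
        positivity
      · intro i hi
        exact (factor_bounds_D h3 (Finset.mem_filter.1 hi).2).2
    refine h1.trans ?_
    rw [← Real.exp_sum]
    apply Real.exp_le_exp.2
    rw [← Finset.mul_sum]
    exact mul_le_mul_of_nonneg_left h h6

/-- The growth of an orbit of `T_d` without repetition. -/
theorem growth_D {C : ℝ} {d : ℤ} (hd : Odd d) (h3 : ¬ (3 : ℤ) ∣ d)
    (hC : ∀ (x : ℤ) (n : ℕ), Set.InjOn (fun i => (T d)^[i] x) (Set.Iio n) →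
      ∑ i ∈ (Finset.range n).filter (fun i => (T d)^[i] x % 2 = 1),
        1 / (|(((T d)^[i] x : ℤ) : ℝ)| + |(d : ℝ)|) ≤ C)
    (x : ℤ) (n : ℕ) (hinj : Set.InjOn (fun i => (T d)^[i] x) (Set.Iio n)) :
    |(x : ℝ)| * 3 ^ ones d x n / 2 ^ n / Real.exp (6 * C) ^ (d ^ 2) ≤ |(((T d)^[n] x : ℤ) : ℝ)| ∧
    |(((T d)^[n] x : ℤ) : ℝ)| ≤ |(x : ℝ)| * 3 ^ ones d x n / 2 ^ n * Real.exp (6 * C) ^ (d ^ 2) := by
  obtain ⟨h1, h2⟩ := prodOddD_abs h3 x n (hC x n hinj)
  have h4 : (0 : ℝ) ≤ |(x : ℝ)| * 3 ^ ones d x n / 2 ^ n := by positivity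
  have e : |(((T d)^[n] x : ℤ) : ℝ)| = |(x : ℝ)| * 3 ^ ones d x n / 2 ^ n * |prodOddD d x n| := by
    rw [iter_eq_D hd x n, abs_mul, abs_div, abs_mul]
    have e1 : |(3 : ℝ) ^ ones d x n| = 3 ^ ones d x n := abs_of_pos (by positivity)
    have e2 : |(2 : ℝ) ^ n| = 2 ^ n := abs_of_pos (by positivity)
    rw [e1, e2]
  have e3 : Real.exp (6 * (d : ℝ) ^ 2 * C) = Real.exp (6 * C) ^ (d ^ 2) := by
    rw [← Real.rpow_intCast, ← Real.exp_mul]
    congr 1
    push_cast
    ring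
  rw [e3] at h1 h2
  rw [e, div_eq_mul_inv _ (Real.exp (6 * C) ^ (d ^ 2))]
  exact ⟨mul_le_mul_of_nonneg_left h1 h4, mul_le_mul_of_nonneg_left h2 h4⟩

end Pool.Agent.Lib.MP_d0d59f_nt.EO
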