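import Pool.Agent.Lib.MP_d0d59f_nt.Basic
import Pool.Agent.Lib.MP_d0d59f_nt.PZ.K033
import Pool.Agent.Lib.MP_d0d59f_nt.PZ.K036
import Pool.Agent.Lib.MP_d0d59f_nt.EO.Bundle2
import Pool.Agent.Lib.MP_d0d59f_nt.EO.GrowthD

/-!
The bounds for every invariant set on which `T_d` is injective up to one point, and the growth of every orbit,
without hypotheses.
-/

set_option autoImplicit false

namespace Pool.Agent.Lib.MP_d0d59f_nt.EO

/-- The counting bound and the reciprocal sum for every invariant set, without hypotheses. -/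
theorem inv_all :
    ∃ c : ℝ, 1 - Real.binEntropy (Real.log 2 / Real.log 3) / Real.log 2 < c ∧ ∃ C : ℝ, 0 < C ∧
      ∀ d : ℤ, Odd d → ¬ (3 : ℤ) ∣ d → ∀ (S : Set ℤ) (s : ℤ),
        (∀ z ∈ S, T d z ∈ S) → Set.InjOn (T d) (S \ {s}) →
        (∀ X : ℝ, |(d : ℝ)| ≤ X →
          (Set.ncard {z : ℤ | z ∈ S ∧ |(z : ℝ)| ≤ X} : ℝ) ≤ C * |(d : ℝ)| ^ c * X ^ (1 - c)) ∧
        ∀ Z : Finset ℤ, (∀ z ∈ Z, z ∈ S) → ∑ z ∈ Z, 1 / (|(z : ℝ)| + |(d : ℝ)|) ≤ C := by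
  obtain ⟨c, hc, C, hC, h⟩ := PX.power_saving2 (fun C ε hε =>
    Pool.Agent.Lib.MP_b27257_nt.BT.ridout_pq 3 2 (by norm_num) (by norm_num) C ε hε)
  obtain ⟨c', hc', A, hA, -, hS⟩ := EO.bundle2 hc hC h
  exact ⟨c', hc', A, hA, hS⟩

/-- Growth of every orbit: if `x_0, ..., x_(n-1)` are distinct (`x_i = T_d^i(x)`) and `j` of them are odd then
`|x_n|` and `|x| 3^j / 2^n` differ at most by the factor `C^(d^2)`. -/
theorem growth_all :
    ∃ C : ℝ, 0 < C ∧ ∀ d : ℤ, Odd d → ¬ (3 : ℤ) ∣ d → ∀ (x : ℤ) (n : ℕ),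
      Set.InjOn (fun i : ℕ => (T d)^[i] x) (Set.Iio n) →
      |(x : ℝ)| * 3 ^ ones d x n / 2 ^ n / C ^ (d ^ 2) ≤ |(((T d)^[n] x : ℤ) : ℝ)| ∧
      |(((T d)^[n] x : ℤ) : ℝ)| ≤ |(x : ℝ)| * 3 ^ ones d x n / 2 ^ n * C ^ (d ^ 2) := by
  classical
  obtain ⟨c, -, C, hC, h⟩ := inv_all
  refine ⟨Real.exp (6 * C), Real.exp_pos _, fun d hd h3 x n hn => growth_D hd h3 ?_ x n hn⟩
  intro x n hn
  obtain ⟨s, hs⟩ := orb_inj d x
  have hinj : Set.InjOn (fun i : ℕ => (T d)^[i] x)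
      (((Finset.range n).filter (fun i => (T d)^[i] x % 2 = 1) : Finset ℕ) : Set ℕ) := by
    refine hn.mono ?_
    intro i hi
    have := (Finset.mem_filter.1 (Finset.mem_coe.1 hi)).1
    exact Finset.mem_range.1 this
  have key := (h d hd h3 (Orb d x) s (fun z hz => orb_T hz) hs).2
    (((Finset.range n).filter (fun i => (T d)^[i] x % 2 = 1)).image (fun i : ℕ => (T d)^[i] x)) ?_
  · rw [Finset.sum_image hinj] at key
    exact key
  · intro z hz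
    obtain ⟨i, _, rfl⟩ := Finset.mem_image.1 hz
    exact ⟨i, rfl⟩

end Pool.Agent.Lib.MP_d0d59f_nt.EO
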